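import Pool.Agent.H14R2.RC.Defs

/-! A spectral gap of the walk on a factor `Y` of a finite group `G` gives a weak Poincare
inequality for all functions on `G`, expansion of small sets, growth of balls and decay of the
lazy walk. -/

namespace Pool.Agent.TH288.SSE
open Finset RC14

noncomputable section

section Abstract

variable {G Y : Type*} [Group G] [Fintype G] [Fintype Y] [DecidableEq Y]

/-- the `ℓ²` norm of `f` on the fibre of `y` -/
def fib (π : G → Y) (f : G → ℝ) (y : Y) : ℝ := Real.sqrt (∑ g with π g = y, f g ^ 2)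

omit [Group G] [Fintype Y] in
lemma fib_nonneg (π : G → Y) (f : G → ℝ) (y : Y) : 0 ≤ fib π f y := Real.sqrt_nonneg _

omit [Group G] [Fintype Y] in
lemma fib_sq (π : G → Y) (f : G → ℝ) (y : Y) : fib π f y ^ 2 = ∑ g with π g = y, f g ^ 2 :=
  Real.sq_sqrt (Finset.sum_nonneg fun _ _ => sq_nonneg _)

omit [Group G] in
lemma sum_fib_sq (π : G → Y) (f : G → ℝ) : ∑ y, fib π f y ^ 2 = ∑ g, f g ^ 2 := by
  simp_rw [fib_sq]
  exact Finset.sum_fiberwise _ _ _

omit [Group G] in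
lemma sum_fib_le (π : G → Y) (f : G → ℝ) : ∑ y, fib π f y ≤ ∑ g, |f g| := by
  rw [← Finset.sum_fiberwise (s := Finset.univ) (g := π) (f := fun g => |f g|)]
  refine Finset.sum_le_sum fun y _ => ?_
  refine Real.sqrt_le_iff.2 ⟨Finset.sum_nonneg fun _ _ => abs_nonneg _, ?_⟩
  simp_rw [← sq_abs (f _)]
  exact Finset.sum_sq_le_sq_sum_of_nonneg (fun _ _ => abs_nonneg _)

omit [Fintype Y] in
lemma cs_fib (π : G → Y) (f : G → ℝ) (h : G) (τ : Equiv.Perm Y)
    (hτ : ∀ g, π (g * h) = τ (π g)) (y : Y) :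
    ∑ g with π g = y, f g * f (g * h) ≤ fib π f y * fib π f (τ y) := by
  have h1 : ∑ g with π g = y, f (g * h) ^ 2 = ∑ g with π g = τ y, f g ^ 2 := by
    refine Finset.sum_nbij' (fun g => g * h) (fun g => g * h⁻¹) ?_ ?_ ?_ ?_ ?_
    · intro g hg
      simp only [Finset.mem_filter, Finset.mem_univ, true_and] at hg ⊢
      rw [hτ, hg]
    · intro g hg
      simp only [Finset.mem_filter, Finset.mem_univ, true_and] at hg ⊢
      have := hτ (g * h⁻¹)
      rw [inv_mul_cancel_right, hg] at this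
      exact (τ.injective this).symm
    · intro g _; simp
    · intro g _; simp
    · intro g _; rfl
  have h2 := Finset.sum_mul_sq_le_sq_mul_sq (Finset.univ.filter fun g => π g = y)
    (fun g => f g) (fun g => f (g * h))
  have h3 : (∑ g with π g = y, f g * f (g * h)) ^ 2 ≤ (fib π f y * fib π f (τ y)) ^ 2 := by
    rw [mul_pow, fib_sq, fib_sq, ← h1]
    exact h2
  exact le_of_sq_le_sq h3 (mul_nonneg (fib_nonneg _ _ _) (fib_nonneg _ _ _))
  where
  le_of_sq_le_sq {a b : ℝ} (h : a ^ 2 ≤ b ^ 2) (hb : 0 ≤ b) : a ≤ b := abs_le_of_sq_le_sq' h hb |>.2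

lemma cs (π : G → Y) (f : G → ℝ) (h : G) (τ : Equiv.Perm Y)
    (hτ : ∀ g, π (g * h) = τ (π g)) :
    ∑ g, f g * f (g * h) ≤ ∑ y, fib π f y * fib π f (τ y) := by
  rw [← Finset.sum_fiberwise (s := Finset.univ) (g := π) (f := fun g => f g * f (g * h))]
  exact Finset.sum_le_sum fun y _ => cs_fib π f h τ hτ y

omit [DecidableEq Y] in
/-- removing the mean -/
lemma gap_all [Nonempty Y] {k : ℕ} (hk : 1 ≤ k) (τ : Fin k → Equiv.Perm Y) (ε : ℝ)
    (H : ∀ F : Y → ℝ, ∑ y, F y = 0 →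
      ∑ y, F y * ((∑ i, (F (τ i y) + F ((τ i)⁻¹ y))) / (2 * k)) ≤ (1 - ε) * ∑ y, F y ^ 2)
    (F : Y → ℝ) :
    ∑ y, F y * ((∑ i, (F (τ i y) + F ((τ i)⁻¹ y))) / (2 * k)) ≤
      (1 - ε) * ∑ y, F y ^ 2 + ε * ((∑ y, F y) ^ 2 / Fintype.card Y) := by
  have hN : (0 : ℝ) < Fintype.card Y := by exact_mod_cast Fintype.card_pos
  have hkp : (0 : ℝ) < k := by exact_mod_cast hk
  set m : ℝ := (∑ y, F y) / Fintype.card Y with hm
  have hsum : ∑ y, F y = m * Fintype.card Y := by rw [hm]; field_simp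
  have h1 := H (fun y => F y - m) (by
    rw [Finset.sum_sub_distrib, hsum]; simp [mul_comm])
  have e1 : ∀ y, (F y - m) * ((∑ i, ((F (τ i y) - m) + (F ((τ i)⁻¹ y) - m))) / (2 * k)) =
      F y * ((∑ i, (F (τ i y) + F ((τ i)⁻¹ y))) / (2 * k)) - m * F y -
        m * ((∑ i, (F (τ i y) + F ((τ i)⁻¹ y))) / (2 * k)) + m ^ 2 := by
    intro y
    have : ∑ i, ((F (τ i y) - m) + (F ((τ i)⁻¹ y) - m)) =
        ∑ i, (F (τ i y) + F ((τ i)⁻¹ y)) - 2 * k * m := by
      rw [show (2 * k * m : ℝ) = ∑ _i : Fin k, 2 * m by simp; ring, ← Finset.sum_sub_distrib]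
      exact Finset.sum_congr rfl fun i _ => by ring
    rw [this]
    field_simp
    ring
  have e2 : ∑ y, ((∑ i, (F (τ i y) + F ((τ i)⁻¹ y))) / (2 * k)) = m * Fintype.card Y := by
    rw [← Finset.sum_div, Finset.sum_comm]
    have : ∀ i, ∑ y, (F (τ i y) + F ((τ i)⁻¹ y)) = 2 * (m * Fintype.card Y) := by
      intro i
      rw [Finset.sum_add_distrib, Equiv.sum_comp (τ i) F, Equiv.sum_comp (τ i)⁻¹ F, hsum]; ring
    simp_rw [this]
    rw [Finset.sum_const, Finset.card_univ, Fintype.card_fin, nsmul_eq_mul]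
    field_simp
  simp_rw [e1] at h1
  rw [Finset.sum_add_distrib, Finset.sum_sub_distrib, Finset.sum_sub_distrib, ← Finset.mul_sum,
    ← Finset.mul_sum, e2, hsum] at h1
  have e3 : ∑ y, (F y - m) ^ 2 = ∑ y, F y ^ 2 - m ^ 2 * Fintype.card Y := by
    have : ∀ y, (F y - m) ^ 2 = F y ^ 2 - 2 * m * F y + m ^ 2 := fun y => by ring
    simp_rw [this]
    rw [Finset.sum_add_distrib, Finset.sum_sub_distrib, ← Finset.mul_sum, hsum]
    simp; ring
  rw [e3] at h1
  have e4 : (∑ y, F y) ^ 2 / Fintype.card Y = m ^ 2 * Fintype.card Y := by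
    rw [hsum]; field_simp
  rw [e4]
  simp only [Finset.sum_const, Finset.card_univ, nsmul_eq_mul] at h1
  nlinarith

/-- the weak Poincare inequality -/
theorem weak_poincare [Nonempty Y] {k : ℕ} (hk : 1 ≤ k) (x : Fin k → G) (π : G → Y)
    (τ : Fin k → Equiv.Perm Y) (hτ : ∀ i g, π (g * x i) = τ i (π g)) (ε : ℝ)
    (H : ∀ F : Y → ℝ, ∑ y, F y = 0 →
      ∑ y, F y * ((∑ i, (F (τ i y) + F ((τ i)⁻¹ y))) / (2 * k)) ≤ (1 - ε) * ∑ y, F y ^ 2)
    (f : G → ℝ) :
    ε * (∑ g, f g ^ 2 - (∑ y, fib π f y) ^ 2 / Fintype.card Y) ≤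
      ∑ g, f g ^ 2 - ∑ g, f g * walk x f g := by
  have hkp : (0 : ℝ) < k := by exact_mod_cast hk
  have hτ' : ∀ i g, π (g * (x i)⁻¹) = (τ i)⁻¹ (π g) := by
    intro i g
    have := hτ i (g * (x i)⁻¹)
    rw [inv_mul_cancel_right] at this
    rw [this]; simp
  have h1 : ∑ g, f g * walk x f g ≤
      ∑ y, fib π f y * ((∑ i, (fib π f (τ i y) + fib π f ((τ i)⁻¹ y))) / (2 * k)) := by
    have e1 : ∑ g, f g * walk x f g =
        (∑ i, (∑ g, f g * f (g * x i) + ∑ g, f g * f (g * (x i)⁻¹))) / (2 * k) := by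
      simp only [walk]
      simp_rw [← Finset.sum_add_distrib]
      rw [Finset.sum_comm, Finset.sum_div]
      refine Finset.sum_congr rfl fun g _ => ?_
      rw [mul_div_assoc', Finset.mul_sum]
      congr 1
      exact Finset.sum_congr rfl fun i _ => by ring
    have e2 : ∑ y, fib π f y * ((∑ i, (fib π f (τ i y) + fib π f ((τ i)⁻¹ y))) / (2 * k)) =
        (∑ i, (∑ y, fib π f y * fib π f (τ i y) + ∑ y, fib π f y * fib π f ((τ i)⁻¹ y))) /
          (2 * k) := by
      simp_rw [← Finset.sum_add_distrib]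
      rw [Finset.sum_comm, Finset.sum_div]
      refine Finset.sum_congr rfl fun g _ => ?_
      rw [mul_div_assoc', Finset.mul_sum]
      congr 1
      exact Finset.sum_congr rfl fun i _ => by ring
    rw [e1, e2]
    refine div_le_div_of_nonneg_right ?_ (by positivity)
    exact Finset.sum_le_sum fun i _ => add_le_add (cs π f _ _ (hτ i)) (cs π f _ _ (hτ' i))
  have h2 := gap_all hk τ ε H (fib π f)
  rw [sum_fib_sq] at h2
  nlinarith

end Abstract

/-! ### consequences -/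
section Cons

variable {G : Type*} [Group G] [Fintype G] [DecidableEq G]

/-- the energy of the indicator function of a set -/
lemma energy_indicator {k : ℕ} (hk : 1 ≤ k) (x : Fin k → G) (A : Finset G) :
    ∑ g, (if g ∈ A then (1 : ℝ) else 0) ^ 2 -
      ∑ g, (if g ∈ A then (1 : ℝ) else 0) * walk x (fun g => if g ∈ A then (1 : ℝ) else 0) g =
      (∑ i, (#{g ∈ A | g * x i ∉ A} : ℝ)) / k := by
  have hkp : (0 : ℝ) < k := by exact_mod_cast hk
  have e0 : ∑ g, (if g ∈ A then (1 : ℝ) else 0) ^ 2 = #A := by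
    simp [ite_pow]
  have e1 : ∀ i, ∑ g, (if g ∈ A then (1 : ℝ) else 0) * (if g * x i ∈ A then (1 : ℝ) else 0) =
      #{g ∈ A | g * x i ∈ A} := by
    intro i
    rw [Finset.card_filter]
    push_cast
    rw [← Finset.sum_subset (Finset.subset_univ A)]
    · exact Finset.sum_congr rfl fun g hg => by simp [hg]
    · intro g _ hg; simp [hg]
  have e2 : ∀ i, ∑ g, (if g ∈ A then (1 : ℝ) else 0) * (if g * (x i)⁻¹ ∈ A then (1 : ℝ) else 0) =
      #{g ∈ A | g * x i ∈ A} := by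
    intro i
    rw [← e1, ← Equiv.sum_comp (Equiv.mulRight (x i))]
    refine Finset.sum_congr rfl fun g _ => ?_
    simp only [Equiv.coe_mulRight, mul_inv_cancel_right]
    by_cases h1 : g ∈ A <;> by_cases h2 : g * x i ∈ A <;> simp [h1, h2]
  have e3 : ∀ i, (#{g ∈ A | g * x i ∉ A} : ℝ) = #A - #{g ∈ A | g * x i ∈ A} := by
    intro i
    have := Finset.card_filter_add_card_filter_not (s := A) (fun g => g * x i ∈ A)
    rw [← this]; push_cast; ring
  have e4 : ∑ g, (if g ∈ A then (1 : ℝ) else 0) *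
      walk x (fun g => if g ∈ A then (1 : ℝ) else 0) g =
      (∑ i, (#{g ∈ A | g * x i ∈ A} : ℝ)) / k := by
    simp only [walk]
    have : ∀ g, (if g ∈ A then (1 : ℝ) else 0) *
        ((∑ i, ((if g * x i ∈ A then (1 : ℝ) else 0) +
          (if g * (x i)⁻¹ ∈ A then (1 : ℝ) else 0))) / (2 * k)) =
        (∑ i, ((if g ∈ A then (1 : ℝ) else 0) * (if g * x i ∈ A then (1 : ℝ) else 0) +
          (if g ∈ A then (1 : ℝ) else 0) * (if g * (x i)⁻¹ ∈ A then (1 : ℝ) else 0))) /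
            (2 * k) := by
      intro g
      rw [mul_div_assoc', Finset.mul_sum]
      congr 1
      exact Finset.sum_congr rfl fun i _ => by ring
    simp_rw [this]
    rw [← Finset.sum_div, Finset.sum_comm]
    simp_rw [Finset.sum_add_distrib, e1, e2]
    field_simp
    ring
  rw [e0, e4]
  simp_rw [e3]
  rw [Finset.sum_sub_distrib]
  simp only [Finset.sum_const, Finset.card_univ, Fintype.card_fin, nsmul_eq_mul]
  field_simp

/-- sets whose image in `Y` is not almost everything expand -/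
theorem expand_image {Y : Type*} [Fintype Y] [DecidableEq Y] [Nonempty Y] {k : ℕ} (hk : 1 ≤ k)
    (x : Fin k → G) (π : G → Y) (ε : ℝ) (hε : 0 ≤ ε) (N : ℝ) (hN : 0 < N)
    (H : ∀ f : G → ℝ, ε * (∑ g, f g ^ 2 - (∑ y, fib π f y) ^ 2 / N) ≤
      ∑ g, f g ^ 2 - ∑ g, f g * walk x f g)
    (A : Finset G) :
    ε * ((1 - #(A.image π) / N) * #A) ≤ (∑ i, (#{g ∈ A | g * x i ∉ A} : ℝ)) / k := by
  rw [← energy_indicator hk x A]
  refine le_trans ?_ (H _)
  have e0 : ∑ g, (if g ∈ A then (1 : ℝ) else 0) ^ 2 = #A := by simp [ite_pow]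
  set f : G → ℝ := fun g => if g ∈ A then (1 : ℝ) else 0 with hf
  have e1 : ∑ y, fib π f y = ∑ y ∈ A.image π, fib π f y := by
    symm
    refine Finset.sum_subset (Finset.subset_univ _) fun y _ hy => ?_
    have h2 : ∑ g with π g = y, f g ^ 2 = 0 := by
      refine Finset.sum_eq_zero fun g hg => ?_
      have hg' : π g = y := (Finset.mem_filter.1 hg).2
      have : g ∉ A := fun h => hy (Finset.mem_image.2 ⟨g, h, hg'⟩)
      simp [hf, this]
    simp [fib, h2]
  have e2 : (∑ y, fib π f y) ^ 2 ≤ #(A.image π) * #A := by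
    rw [e1]
    refine (sq_sum_le_card_mul_sum_sq).trans ?_
    refine mul_le_mul_of_nonneg_left ?_ (Nat.cast_nonneg _)
    calc ∑ y ∈ A.image π, fib π f y ^ 2 ≤ ∑ y, fib π f y ^ 2 :=
          Finset.sum_le_sum_of_subset_of_nonneg (Finset.subset_univ _) fun _ _ _ => sq_nonneg _
      _ = ∑ g, f g ^ 2 := sum_fib_sq π f
      _ = #A := e0
  refine mul_le_mul_of_nonneg_left ?_ hε
  rw [e0, sub_mul, one_mul, div_mul_eq_mul_div]
  exact sub_le_sub_left (div_le_div_of_nonneg_right e2 hN.le) _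

/-- small sets expand -/
theorem expand_of {k : ℕ} (hk : 1 ≤ k) (x : Fin k → G) (ε : ℝ) (hε : 0 ≤ ε) (N : ℝ) (hN : 0 < N)
    (H : ∀ f : G → ℝ, ε * (∑ g, f g ^ 2 - (∑ g, |f g|) ^ 2 / N) ≤
      ∑ g, f g ^ 2 - ∑ g, f g * walk x f g)
    (A : Finset G) (hA : 2 * (#A : ℝ) ≤ N) :
    ε / 2 * #A ≤ (∑ i, (#{g ∈ A | g * x i ∉ A} : ℝ)) / k := by
  rw [← energy_indicator hk x A]
  refine le_trans ?_ (H _)
  have e0 : ∑ g, (if g ∈ A then (1 : ℝ) else 0) ^ 2 = #A := by simp [ite_pow]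
  have e1 : ∑ g, |(if g ∈ A then (1 : ℝ) else 0)| = #A := by
    simp [apply_ite abs]
  rw [e0, e1]
  have h1 : (#A : ℝ) ^ 2 / N ≤ #A / 2 := by
    rw [div_le_div_iff₀ hN (by norm_num)]
    nlinarith [Nat.cast_nonneg (α := ℝ) (#A)]
  nlinarith

/-- the lazy walk -/
def lazy {k : ℕ} (x : Fin k → G) (f : G → ℝ) (g : G) : ℝ := (f g + walk x f g) / 2

omit [DecidableEq G] in
lemma walk_symm {k : ℕ} (x : Fin k → G) (f h : G → ℝ) :
    ∑ g, f g * walk x h g = ∑ g, walk x f g * h g := by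
  simp only [walk]
  have e1 : ∀ g, f g * ((∑ i, (h (g * x i) + h (g * (x i)⁻¹))) / (2 * k)) =
      (∑ i, (f g * h (g * x i) + f g * h (g * (x i)⁻¹))) / (2 * k) := by
    intro g
    rw [mul_div_assoc', Finset.mul_sum]
    congr 1
    exact Finset.sum_congr rfl fun i _ => by ring
  have e2 : ∀ g, ((∑ i, (f (g * x i) + f (g * (x i)⁻¹))) / (2 * k)) * h g =
      (∑ i, (f (g * x i) * h g + f (g * (x i)⁻¹) * h g)) / (2 * k) := by
    intro g
    rw [div_mul_eq_mul_div, Finset.sum_mul]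
    congr 1
    exact Finset.sum_congr rfl fun i _ => by ring
  simp_rw [e1, e2]
  rw [← Finset.sum_div, ← Finset.sum_div, Finset.sum_comm,
    Finset.sum_comm (s := Finset.univ (α := G))]
  congr 1
  refine Finset.sum_congr rfl fun i _ => ?_
  rw [Finset.sum_add_distrib, Finset.sum_add_distrib, add_comm]
  congr 1
  · rw [← Equiv.sum_comp (Equiv.mulRight (x i))]
    refine Finset.sum_congr rfl fun g _ => ?_
    simp
  · rw [← Equiv.sum_comp (Equiv.mulRight (x i)⁻¹)]
    refine Finset.sum_congr rfl fun g _ => ?_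
    simp

omit [DecidableEq G] in
lemma lazy_symm {k : ℕ} (x : Fin k → G) (f h : G → ℝ) :
    ∑ g, f g * lazy x h g = ∑ g, lazy x f g * h g := by
  have := walk_symm x f h
  simp only [lazy]
  have e1 : ∀ g, f g * ((h g + walk x h g) / 2) = (f g * h g + f g * walk x h g) / 2 :=
    fun g => by ring
  have e2 : ∀ g, (f g + walk x f g) / 2 * h g = (f g * h g + walk x f g * h g) / 2 :=
    fun g => by ring
  simp_rw [e1, e2]
  rw [← Finset.sum_div, ← Finset.sum_div, Finset.sum_add_distrib, Finset.sum_add_distrib, this]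

omit [DecidableEq G] in
lemma lazy_iter_symm {k : ℕ} (x : Fin k → G) (t : ℕ) (f h : G → ℝ) :
    ∑ g, f g * (lazy x)^[t] h g = ∑ g, (lazy x)^[t] f g * h g := by
  induction t generalizing f h with
  | zero => rfl
  | succ t ih =>
    rw [Function.iterate_succ_apply', lazy_symm, ih (lazy x f) h, ← Function.iterate_succ_apply]

omit [DecidableEq G] in
lemma sum_walk {k : ℕ} (hk : 1 ≤ k) (x : Fin k → G) (f : G → ℝ) :
    ∑ g, walk x f g = ∑ g, f g := by
  have hkp : (0 : ℝ) < k := by exact_mod_cast hk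
  have h := walk_symm x (fun _ => 1) f
  simp only [one_mul] at h
  rw [h]
  refine Finset.sum_congr rfl fun g _ => ?_
  simp only [walk]
  rw [Finset.sum_const, Finset.card_univ, Fintype.card_fin, nsmul_eq_mul]
  field_simp
  ring

omit [DecidableEq G] in
lemma sum_lazy {k : ℕ} (hk : 1 ≤ k) (x : Fin k → G) (f : G → ℝ) :
    ∑ g, lazy x f g = ∑ g, f g := by
  simp only [lazy]
  rw [← Finset.sum_div, Finset.sum_add_distrib, sum_walk hk]; ring

omit [Fintype G] [DecidableEq G] in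
lemma walk_nonneg {k : ℕ} (x : Fin k → G) (f : G → ℝ) (hf : ∀ g, 0 ≤ f g) (g : G) :
    0 ≤ walk x f g := by
  unfold walk
  exact div_nonneg (Finset.sum_nonneg fun i _ => add_nonneg (hf _) (hf _)) (by positivity)

omit [Fintype G] [DecidableEq G] in
lemma lazy_nonneg {k : ℕ} (x : Fin k → G) (f : G → ℝ) (hf : ∀ g, 0 ≤ f g) (g : G) :
    0 ≤ lazy x f g := by
  unfold lazy
  have := walk_nonneg x f hf g
  have := hf g
  positivity

omit [DecidableEq G] in
lemma walk_sq_le {k : ℕ} (hk : 1 ≤ k) (x : Fin k → G) (f : G → ℝ) :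
    ∑ g, walk x f g ^ 2 ≤ ∑ g, f g ^ 2 := by
  have hkp : (0 : ℝ) < k := by exact_mod_cast hk
  have h1 : ∀ g, walk x f g ^ 2 ≤ walk x (fun g => f g ^ 2) g := by
    intro g
    simp only [walk]
    have h2 : (∑ i, (f (g * x i) + f (g * (x i)⁻¹))) ^ 2 ≤
        k * ∑ i, (f (g * x i) + f (g * (x i)⁻¹)) ^ 2 := by
      have := sq_sum_le_card_mul_sum_sq (s := (Finset.univ : Finset (Fin k)))
        (f := fun i => f (g * x i) + f (g * (x i)⁻¹))
      simpa using this
    have h3 : ∑ i, (f (g * x i) + f (g * (x i)⁻¹)) ^ 2 ≤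
        2 * ∑ i, (f (g * x i) ^ 2 + f (g * (x i)⁻¹) ^ 2) := by
      rw [Finset.mul_sum]
      exact Finset.sum_le_sum fun i _ => by nlinarith [sq_nonneg (f (g * x i) - f (g * (x i)⁻¹))]
    rw [div_pow, div_le_div_iff₀ (by positivity) (by positivity)]
    have h4 : (∑ i, (f (g * x i) + f (g * (x i)⁻¹))) ^ 2 ≤
        2 * k * ∑ i, (f (g * x i) ^ 2 + f (g * (x i)⁻¹) ^ 2) := by
      nlinarith
    nlinarith
  calc ∑ g, walk x f g ^ 2 ≤ ∑ g, walk x (fun g => f g ^ 2) g := Finset.sum_le_sum fun g _ => h1 g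
    _ = _ := sum_walk hk x _

omit [DecidableEq G] in
/-- one step of the lazy walk -/
lemma lazy_step {k : ℕ} (hk : 1 ≤ k) (x : Fin k → G) (ε : ℝ) (N : ℝ)
    (H : ∀ f : G → ℝ, ε * (∑ g, f g ^ 2 - (∑ g, |f g|) ^ 2 / N) ≤
      ∑ g, f g ^ 2 - ∑ g, f g * walk x f g) (f : G → ℝ) (hf : ∀ g, 0 ≤ f g)
    (hs : ∑ g, f g = 1) :
    ∑ g, lazy x f g ^ 2 - 1 / N ≤ (1 - ε / 2) * (∑ g, f g ^ 2 - 1 / N) := by
  have h1 := walk_sq_le hk x f
  have h2 := H f
  have h3 : ∑ g, |f g| = 1 := by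
    rw [← hs]; exact Finset.sum_congr rfl fun g _ => abs_of_nonneg (hf g)
  rw [h3, one_pow] at h2
  have e1 : ∑ g, lazy x f g ^ 2 =
      (∑ g, f g ^ 2 + 2 * ∑ g, f g * walk x f g + ∑ g, walk x f g ^ 2) / 4 := by
    rw [Finset.mul_sum, ← Finset.sum_add_distrib, ← Finset.sum_add_distrib, Finset.sum_div]
    exact Finset.sum_congr rfl fun g _ => by simp only [lazy]; ring
  rw [e1]
  nlinarith

/-- the heat kernel bound -/
theorem heat {k : ℕ} (hk : 1 ≤ k) (x : Fin k → G) (ε : ℝ) (hε1 : ε ≤ 2) (N : ℝ) (hN : 0 < N)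
    (H : ∀ f : G → ℝ, ε * (∑ g, f g ^ 2 - (∑ g, |f g|) ^ 2 / N) ≤
      ∑ g, f g ^ 2 - ∑ g, f g * walk x f g) (a : G) (t : ℕ) :
    (∀ g, 0 ≤ (lazy x)^[t] (Pi.single a 1) g) ∧ ∑ g, (lazy x)^[t] (Pi.single a 1) g = 1 ∧
      ∑ g, (lazy x)^[t] (Pi.single a 1) g ^ 2 ≤ (1 - ε / 2) ^ t + 1 / N := by
  have main : (∀ g, 0 ≤ (lazy x)^[t] (Pi.single a 1) g) ∧
      ∑ g, (lazy x)^[t] (Pi.single a 1) g = 1 ∧
      ∑ g, (lazy x)^[t] (Pi.single a 1) g ^ 2 - 1 / N ≤ (1 - ε / 2) ^ t := by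
    induction t with
    | zero =>
      refine ⟨fun g => ?_, ?_, ?_⟩
      · simp only [Function.iterate_zero, id_eq, Pi.single_apply]; split_ifs <;> norm_num
      · simp [Pi.single_apply]
      · simp only [Function.iterate_zero, id_eq, Pi.single_apply, ite_pow, one_pow]
        simp
        positivity
    | succ t ih =>
      obtain ⟨h1, h2, h3⟩ := ih
      simp only [Function.iterate_succ_apply']
      refine ⟨lazy_nonneg x _ h1, ?_, ?_⟩
      · rw [sum_lazy hk, h2]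
      · refine (lazy_step hk x ε N H _ h1 h2).trans ?_
        rw [pow_succ, mul_comm ((1 - ε / 2) ^ t)]
        exact mul_le_mul_of_nonneg_left h3 (by linarith)
  exact ⟨main.1, main.2.1, by linarith [main.2.2]⟩

/-- uniform bound for the transition probabilities at even times -/
theorem heat_sup {k : ℕ} (hk : 1 ≤ k) (x : Fin k → G) (ε : ℝ) (hε1 : ε ≤ 2) (N : ℝ) (hN : 0 < N)
    (H : ∀ f : G → ℝ, ε * (∑ g, f g ^ 2 - (∑ g, |f g|) ^ 2 / N) ≤
      ∑ g, f g ^ 2 - ∑ g, f g * walk x f g) (a b : G) (t : ℕ) :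
    (lazy x)^[2 * t] (Pi.single a 1) b ≤ (1 - ε / 2) ^ t + 1 / N := by
  have h1 : (lazy x)^[2 * t] (Pi.single a 1) b =
      ∑ g, (lazy x)^[t] (Pi.single b 1) g * (lazy x)^[t] (Pi.single a 1) g := by
    rw [← lazy_iter_symm x t (Pi.single b 1) ((lazy x)^[t] (Pi.single a 1)),
      ← Function.iterate_add_apply, ← two_mul]
    simp [Pi.single_apply]
  obtain ⟨-, -, ha⟩ := heat hk x ε hε1 N hN H a t
  obtain ⟨-, -, hb⟩ := heat hk x ε hε1 N hN H b t
  have h2 := Finset.sum_mul_sq_le_sq_mul_sq Finset.univ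
    (fun g => (lazy x)^[t] (Pi.single b 1) g) (fun g => (lazy x)^[t] (Pi.single a 1) g)
  rw [h1]
  have hM : 0 ≤ (1 - ε / 2) ^ t + 1 / N := by
    have : 0 ≤ (1 - ε / 2) ^ t := pow_nonneg (by linarith) t
    positivity
  refine (abs_le_of_sq_le_sq' (h2.trans ?_) hM).2
  rw [sq]
  exact mul_le_mul hb ha (Finset.sum_nonneg fun _ _ => sq_nonneg _) hM

end Cons

/-! ### balls -/
section Ball

variable {G : Type*} [Group G]

/-- the elements of `G` which are products of at most `t` factors from `{x_i, x_i⁻¹}` -/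
def ball {k : ℕ} (x : Fin k → G) (t : ℕ) : Set G :=
  {g | ∃ w : List G, w.length ≤ t ∧ (∀ y ∈ w, ∃ i, y = x i ∨ y = (x i)⁻¹) ∧ w.prod = g}

lemma ball_mono {k : ℕ} (x : Fin k → G) (t : ℕ) : ball x t ⊆ ball x (t + 1) := by
  rintro g ⟨w, h1, h2, h3⟩
  exact ⟨w, by omega, h2, h3⟩

lemma ball_mul {k : ℕ} (x : Fin k → G) (t : ℕ) (g : G) (hg : g ∈ ball x t) (i : Fin k) :
    g * x i ∈ ball x (t + 1) := by
  obtain ⟨w, h1, h2, rfl⟩ := hg
  refine ⟨w ++ [x i], by simp; omega, ?_, by simp⟩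
  intro y hy
  rcases List.mem_append.1 hy with h | h
  · exact h2 y h
  · exact ⟨i, Or.inl (by simpa using h)⟩

lemma one_mem_ball {k : ℕ} (x : Fin k → G) (t : ℕ) : (1 : G) ∈ ball x t :=
  ⟨[], by simp, by simp, by simp⟩

variable [Fintype G] [DecidableEq G]

/-- exponential growth of balls -/
theorem ball_growth {k : ℕ} (hk : 1 ≤ k) (x : Fin k → G) (ε : ℝ) (hε : 0 ≤ ε) (N : ℝ)
    (H : ∀ A : Finset G, 2 * (#A : ℝ) ≤ N →
      ε / 2 * #A ≤ (∑ i, (#{g ∈ A | g * x i ∉ A} : ℝ)) / k) (t : ℕ)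
    (hN : 2 * (1 + ε / 2) ^ t ≤ N) :
    (1 + ε / 2) ^ t ≤ ((ball x t).ncard : ℝ) := by
  have hkp : (0 : ℝ) < k := by exact_mod_cast hk
  induction t with
  | zero =>
    have : 0 < (ball x 0).ncard := (Set.ncard_pos (Set.toFinite _)).2 ⟨1, one_mem_ball x 0⟩
    rw [pow_zero]
    exact_mod_cast this
  | succ t ih =>
    have hpos : (1 : ℝ) ≤ 1 + ε / 2 := by linarith
    have h1 := ih (le_trans (by gcongr <;> omega) hN)
    classical
    have hfin : (ball x t).Finite := Set.toFinite _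
    set A : Finset G := hfin.toFinset with hA
    have hcard : (ball x t).ncard = #A := Set.ncard_eq_toFinset_card _ hfin
    have hfin' : (ball x (t + 1)).Finite := Set.toFinite _
    have hcard' : (ball x (t + 1)).ncard = (hfin'.toFinset).card := Set.ncard_eq_toFinset_card _ hfin'
    by_cases hA2 : 2 * (#A : ℝ) ≤ N
    · have h2 := H A hA2
      rw [le_div_iff₀ hkp] at h2
      -- some generator expands `A`
      obtain ⟨i, hi⟩ : ∃ i, ε / 2 * #A ≤ (#{g ∈ A | g * x i ∉ A} : ℝ) := by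
        by_contra hcon
        push Not at hcon
        have : ∑ i, (#{g ∈ A | g * x i ∉ A} : ℝ) < ∑ _i : Fin k, ε / 2 * #A :=
          Finset.sum_lt_sum_of_nonempty ⟨⟨0, hk⟩, Finset.mem_univ _⟩ fun i _ => hcon i
        rw [Finset.sum_const, Finset.card_univ, Fintype.card_fin, nsmul_eq_mul] at this
        linarith
      have h3 : #A + #{g ∈ A | g * x i ∉ A} ≤ (hfin'.toFinset).card := by
        rw [← Finset.card_image_of_injective {g ∈ A | g * x i ∉ A} (mul_left_injective (x i)),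
          ← Finset.card_union_of_disjoint]
        · refine Finset.card_le_card fun g hg => ?_
          rw [Set.Finite.mem_toFinset]
          rcases Finset.mem_union.1 hg with h | h
          · exact ball_mono x t ((Set.Finite.mem_toFinset _).1 h)
          · obtain ⟨g', h', rfl⟩ := Finset.mem_image.1 h
            exact ball_mul x t g' ((Set.Finite.mem_toFinset _).1 (Finset.mem_filter.1 h').1) i
        · rw [Finset.disjoint_left]
          intro g hg hg'
          obtain ⟨g', h', rfl⟩ := Finset.mem_image.1 hg'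
          exact (Finset.mem_filter.1 h').2 hg
      rw [hcard', pow_succ]
      have h4 : (#A : ℝ) + #{g ∈ A | g * x i ∉ A} ≤ (hfin'.toFinset).card := by exact_mod_cast h3
      rw [hcard] at h1
      nlinarith
    · push Not at hA2
      have h5 : (#A : ℝ) ≤ (hfin'.toFinset).card := by
        exact_mod_cast Finset.card_le_card fun g hg => by
          rw [Set.Finite.mem_toFinset]
          exact ball_mono x t ((Set.Finite.mem_toFinset _).1 hg)
      rw [hcard']
      linarith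

end Ball

end

end Pool.Agent.TH288.SSE
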