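import Pool.Agent.TH288.Sys

/-!
Confluence of the rewriting system.
-/

namespace TH288.Sys

open TH288.Diamond

/-- Row rank. -/
def rr (x : Lt) : ℕ := if x.1 % 2 = 0 then 12 - x.2.1.val else if x.2.1 = 7 then 1 else 0
/-- Column rank. -/
def rc (x : Lt) : ℕ := if x.1 % 2 = 1 then 12 - x.2.2.val else if x.2.2 = 7 then 1 else 0

/-- Row value. -/
def rv : List Lt → ℕ
  | [] => 0
  | x :: w => rr x * 16 ^ w.length + rv w
/-- Column value. -/
def cv : List Lt → ℕ
  | [] => 0
  | x :: w => rc x + 16 * cv w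

/-- The measure. -/
def mu (w : List Lt) : ℕ := 16 ^ w.length + rv w + cv w

lemma rr_lt (x : Lt) : rr x < 16 := by
  unfold rr; split_ifs <;> omega
lemma rc_lt (x : Lt) : rc x < 16 := by
  unfold rc; split_ifs <;> omega

lemma rv_lt (w : List Lt) : rv w < 16 ^ w.length := by
  induction w with
  | nil => simp [rv]
  | cons x w ih =>
    simp only [rv, List.length_cons, pow_succ]
    have h1 := rr_lt x
    have h2 : rr x * 16 ^ w.length ≤ 15 * 16 ^ w.length := Nat.mul_le_mul_right _ (by omega)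
    omega

lemma cv_lt (w : List Lt) : cv w < 16 ^ w.length := by
  induction w with
  | nil => simp [cv]
  | cons x w ih =>
    simp only [cv, List.length_cons, pow_succ]
    have h1 := rc_lt x
    omega

lemma rv_append (u w : List Lt) : rv (u ++ w) = rv u * 16 ^ w.length + rv w := by
  induction u with
  | nil => simp [rv]
  | cons x u ih =>
    simp only [List.cons_append, rv, ih, List.length_append, pow_add]
    ring

lemma cv_append (u w : List Lt) : cv (u ++ w) = cv u + 16 ^ u.length * cv w := by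
  induction u with
  | nil => simp [cv]
  | cons x u ih =>
    simp only [List.cons_append, cv, ih, List.length_cons, pow_succ]
    ring

lemma lt_of_len {w w' : List Lt} (h : w.length < w'.length) : lt mu w w' := by
  intro u v
  have h1 := rv_lt (u ++ w ++ v)
  have h2 := cv_lt (u ++ w ++ v)
  have h3 : 16 ^ ((u ++ w ++ v).length + 1) ≤ 16 ^ (u ++ w' ++ v).length := by
    apply Nat.pow_le_pow_right (by norm_num)
    simp only [List.length_append]
    omega
  rw [pow_succ] at h3
  unfold mu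
  omega

lemma lt_of_val {w w' : List Lt} (h : w.length = w'.length) (hr : rv w ≤ rv w')
    (hc : cv w ≤ cv w') (hs : rv w < rv w' ∨ cv w < cv w') : lt mu w w' := by
  intro u v
  unfold mu
  simp only [rv_append, cv_append, List.length_append, h]
  have h1 : rv w * 16 ^ v.length ≤ rv w' * 16 ^ v.length := Nat.mul_le_mul_right _ hr
  have h2 : 16 ^ u.length * cv w ≤ 16 ^ u.length * cv w' := Nat.mul_le_mul_left _ hc
  have e1 : ∀ z, (rv u * 16 ^ w'.length + z) * 16 ^ v.length =
    rv u * 16 ^ w'.length * 16 ^ v.length + z * 16 ^ v.length := fun z => by ring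
  rw [e1, e1]
  rcases hs with h3 | h3
  · have h4 : rv w * 16 ^ v.length < rv w' * 16 ^ v.length :=
      Nat.mul_lt_mul_of_pos_right h3 (by positivity)
    omega
  · have h4 : 16 ^ u.length * cv w < 16 ^ u.length * cv w' :=
      Nat.mul_lt_mul_of_pos_left h3 (by positivity)
    omega

/-- The letters as elements of the free algebra. -/
noncomputable def X (l : ℕ) (i j : I) : FreeAlgebra ℂ Lt := FreeAlgebra.ι ℂ (l, i, j)

/-- The tails. -/
noncomputable def Tl (r : Rule) : FreeAlgebra ℂ Lt := wd ℂ [fst r, snd r] - rel X r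

lemma poly_eq (r : Rule) : poly fst snd Tl r = rel X r := by
  simp [poly, Tl]

/-- abbreviation -/
noncomputable abbrev LowM (w : List Lt) : Submodule ℂ (FreeAlgebra ℂ Lt) := Low (k := ℂ) mu w
/-- abbreviation -/
noncomputable abbrev JM (w : List Lt) : Submodule ℂ (FreeAlgebra ℂ Lt) := J mu fst snd Tl w

section sums
variable {P : Type*} [AddCommGroup P] [Module ℂ P] (M : Submodule ℂ P)

lemma sum_sub_mem (f : I → P) (e0 : I) (h : ∀ e, e ≠ e0 → f e ∈ M) : (∑ e, f e) - f e0 ∈ M := by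
  rw [← Finset.add_sum_erase _ _ (Finset.mem_univ e0), add_sub_cancel_left]
  exact Submodule.sum_mem _ fun e he => h e (Finset.ne_of_mem_erase he)

lemma sum2_sub_mem (f : I → I → P) (p0 q0 : I) (h : ∀ p q, (p, q) ≠ (p0, q0) → f p q ∈ M) :
    (∑ p, ∑ q, f p q) - f p0 q0 ∈ M := by
  rw [← Fintype.sum_prod_type', ← Finset.add_sum_erase _ _ (Finset.mem_univ (p0, q0)),
    add_sub_cancel_left]
  exact Submodule.sum_mem _ fun e he => h e.1 e.2 (Finset.ne_of_mem_erase he)

end sums

lemma low2 {x y x' y' : Lt} (hr : rr x * 16 + rr y ≤ rr x' * 16 + rr y')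
    (hc : rc x + 16 * rc y ≤ rc x' + 16 * rc y')
    (hs : rr x * 16 + rr y < rr x' * 16 + rr y' ∨ rc x + 16 * rc y < rc x' + 16 * rc y') :
    lt mu [x, y] [x', y'] := by
  refine lt_of_val (by rfl) ?_ ?_ ?_
  · simpa [rv] using hr
  · simpa [cv] using hc
  · simpa [rv, cv] using hs

lemma rv3 (x y z : Lt) : rv [x, y, z] = rr x * 256 + rr y * 16 + rr z := by
  simp [rv]; ring
lemma cv3 (x y z : Lt) : cv [x, y, z] = rc x + 16 * rc y + 256 * rc z := by
  simp [cv]; ring

lemma low3 {x y z x' y' z' : Lt}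
    (hr : rr x * 256 + rr y * 16 + rr z ≤ rr x' * 256 + rr y' * 16 + rr z')
    (hc : rc x + 16 * rc y + 256 * rc z ≤ rc x' + 16 * rc y' + 256 * rc z')
    (hs : rr x * 256 + rr y * 16 + rr z < rr x' * 256 + rr y' * 16 + rr z' ∨
      rc x + 16 * rc y + 256 * rc z < rc x' + 16 * rc y' + 256 * rc z') :
    lt mu [x, y, z] [x', y', z'] := by
  refine lt_of_val (by rfl) ?_ ?_ ?_
  · rw [rv3, rv3]; exact hr
  · rw [cv3, cv3]; exact hc
  · rw [rv3, rv3, cv3, cv3]; exact hs

lemma rr_even {l : ℕ} (h : l % 2 = 0) (i j : I) : rr (l, i, j) = 12 - i.val := by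
  simp [rr, h]
lemma rr_odd {l : ℕ} (h : l % 2 = 1) (i j : I) : rr (l, i, j) = if i = 7 then 1 else 0 := by
  simp [rr, h]
lemma rc_odd {l : ℕ} (h : l % 2 = 1) (i j : I) : rc (l, i, j) = 12 - j.val := by
  simp [rc, h]
lemma rc_even {l : ℕ} (h : l % 2 = 0) (i j : I) : rc (l, i, j) = if j = 7 then 1 else 0 := by
  simp [rc, h]

lemma rr_col (l : ℕ) (i j j' : I) : rr (l, i, j) = rr (l, i, j') := by simp [rr]
lemma rc_row (l : ℕ) (i i' j : I) : rc (l, i, j) = rc (l, i', j) := by simp [rc]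

lemma Xi (l : ℕ) (i j : I) : FreeAlgebra.ι ℂ ((l, i, j) : Lt) = X l i j := rfl

lemma wd2 (l l' : ℕ) (i j i' j' : I) :
    wd ℂ [((l, i, j) : Lt), (l', i', j')] = X l i j * X l' i' j' := by
  simp [wd, X]

lemma mem_low {w t : List Lt} (h : lt mu t w) : wd ℂ t ∈ LowM w :=
  Submodule.subset_span ⟨t, h, rfl⟩

lemma mem_low2 {w : List Lt} {l l' : ℕ} {i j i' j' : I}
    (h : lt mu [(l, i, j), (l', i', j')] w) : X l i j * X l' i' j' ∈ LowM w := by
  rw [← wd2]; exact mem_low h

lemma mem_low1 {x y : Lt} (l : ℕ) (i j : I) : X l i j ∈ LowM [x, y] := by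
  have : X l i j = wd ℂ [((l, i, j) : Lt)] := by simp [wd, X]
  rw [this]; exact mem_low (lt_of_len (by simp))

lemma mem_low0 {x y : Lt} (c : FreeAlgebra ℂ Lt) (hc : c = 0 ∨ c = 1) : c ∈ LowM [x, y] := by
  rcases hc with rfl | rfl
  · exact Submodule.zero_mem _
  · have : (1 : FreeAlgebra ℂ Lt) = wd ℂ [] := by simp
    rw [this]; exact mem_low (lt_of_len (by simp))

/-- comparison for `A`. -/
lemma cmpA (l : ℕ) (i j p : I) (hp : p ≠ pA l) :
    rc (l, i, p) + 16 * rc (l + 1, j, p) < rc (l, i, pA l) + 16 * rc (l + 1, j, pA l) := by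
  rcases Nat.mod_two_eq_zero_or_one l with h | h
  · have h1 : (l + 1) % 2 = 1 := by omega
    rw [rc_even h, rc_odd h1, rc_even h, rc_odd h1]
    simp only [pA, h, if_true] at hp ⊢
    have : p.val ≠ 0 := fun h' => hp (Fin.ext h')
    have h2 : ((0 : I)).val = 0 := rfl
    rw [h2]
    split_ifs <;> omega
  · have h1 : (l + 1) % 2 = 0 := by omega
    rw [rc_odd h, rc_even h1, rc_odd h, rc_even h1]
    have h3 : pA l = 7 := by simp [pA, h]
    rw [h3] at hp ⊢
    have h2 : ((7 : I)).val = 7 := rfl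
    rw [h2, if_neg hp, if_pos rfl]
    omega

/-- comparison for `B`. -/
lemma cmpB (l : ℕ) (i j p : I) (hp : p ≠ pB l) :
    rr (l + 1, p, i) * 16 + rr (l, p, j) < rr (l + 1, pB l, i) * 16 + rr (l, pB l, j) := by
  rcases Nat.mod_two_eq_zero_or_one l with h | h
  · have h1 : (l + 1) % 2 = 1 := by omega
    rw [rr_odd h1, rr_even h, rr_odd h1, rr_even h]
    have h3 : pB l = 7 := by simp [pB, h]
    rw [h3] at hp ⊢
    have h2 : ((7 : I)).val = 7 := rfl
    rw [h2, if_neg hp, if_pos rfl]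
    omega
  · have h1 : (l + 1) % 2 = 0 := by omega
    rw [rr_even h1, rr_odd h, rr_even h1, rr_odd h]
    have h3 : pB l = 0 := by simp [pB, h]
    rw [h3] at hp ⊢
    have : p.val ≠ 0 := fun h' => hp (Fin.ext h')
    have h2 : ((0 : I)).val = 0 := rfl
    rw [h2]
    split_ifs <;> omega

lemma lev_even (k : ℕ) : lev k % 2 = 0 := by unfold lev; omega
lemma lev_odd (k : ℕ) : (lev k + 1) % 2 = 1 := by unfold lev; omega

lemma Th_ne {k : ℕ} {u v w : I} (h : Th k u v w ≠ 0) : pht (cyc k) u v w = true := by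
  unfold Th at h
  by_contra h'
  simp [h'] at h

/-- comparison for `R`. -/
lemma cmpR (k : ℕ) (s p q d e : I) (h : Th k p q s ≠ 0) (hne : (p, q) ≠ Ld k s) :
    rr (lev (k + 2), p, d) * 16 + rr (lev (k + 1), q, e) <
      rr (lev (k + 2), (Ld k s).1, d) * 16 + rr (lev (k + 1), (Ld k s).2, e) := by
  have h1 := T2 _ s p q (Th_ne h) hne
  rw [rr_even (lev_even _), rr_even (lev_even _), rr_even (lev_even _), rr_even (lev_even _)]
  unfold Ld
  omega

lemma Th_ne' {k : ℕ} {s p q : I} (h : Th k s p q ≠ 0) : pht (cyc (k + 2)) p q s = true := by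
  apply Th_ne
  rwa [Th_rot']

/-- comparison for `C`. -/
lemma cmpC (k : ℕ) (s p q d e : I) (h : Th k s p q ≠ 0) (hne : (p, q) ≠ Ld (k + 2) s) :
    rc (lev k + 1, e, q) + 16 * rc (lev (k + 1) + 1, d, p) <
      rc (lev k + 1, e, (Ld (k + 2) s).2) + 16 * rc (lev (k + 1) + 1, d, (Ld (k + 2) s).1) := by
  have h1 := T2 _ s p q (Th_ne' h) hne
  rw [rc_odd (lev_odd _), rc_odd (lev_odd _), rc_odd (lev_odd _), rc_odd (lev_odd _)]
  unfold Ld
  omega

lemma Th_lead (k : ℕ) (s : I) : Th k (Ld k s).1 (Ld k s).2 s = 1 := by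
  unfold Th Ld
  rw [if_pos (T1 _ s)]

lemma Th_lead' (k : ℕ) (s : I) : Th k s (Ld (k + 2) s).1 (Ld (k + 2) s).2 = 1 := by
  rw [← Th_rot', Th_lead]

lemma hT (r : Rule) : Tl r ∈ LowM [fst r, snd r] := by
  cases r with
  | A l i j =>
    have h1 := sum_sub_mem (LowM [fst (.A l i j), snd (.A l i j)])
      (fun p => X l i p * X (l + 1) j p) (pA l) (fun p hp => mem_low2 (low2 (le_refl _)
        (cmpA l i j p hp).le (Or.inr (cmpA l i j p hp))))
    have h2 : (if i = j then (1 : FreeAlgebra ℂ Lt) else 0) ∈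
      LowM [fst (.A l i j), snd (.A l i j)] := mem_low0 _ (by split_ifs <;> simp)
    have h3 : Tl (.A l i j) = (if i = j then (1 : FreeAlgebra ℂ Lt) else 0) -
      ((∑ p, X l i p * X (l + 1) j p) - X l i (pA l) * X (l + 1) j (pA l)) := by
      simp only [Tl, rel, relA, fst, snd, wd2]
      abel
    rw [h3]
    exact Submodule.sub_mem _ h2 h1
  | B l i j =>
    have h1 := sum_sub_mem (LowM [fst (.B l i j), snd (.B l i j)])
      (fun p => X (l + 1) p i * X l p j) (pB l) (fun p hp => mem_low2 (low2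
        (cmpB l i j p hp).le (le_refl _) (Or.inl (cmpB l i j p hp))))
    have h2 : (if i = j then (1 : FreeAlgebra ℂ Lt) else 0) ∈
      LowM [fst (.B l i j), snd (.B l i j)] := mem_low0 _ (by split_ifs <;> simp)
    have h3 : Tl (.B l i j) = (if i = j then (1 : FreeAlgebra ℂ Lt) else 0) -
      ((∑ p, X (l + 1) p i * X l p j) - X (l + 1) (pB l) i * X l (pB l) j) := by
      simp only [Tl, rel, relB, fst, snd, wd2]
      abel
    rw [h3]
    exact Submodule.sub_mem _ h2 h1
  | R k s d e =>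
    have h1 := sum2_sub_mem (LowM [fst (.R k s d e), snd (.R k s d e)])
      (fun p q => Th k p q s • (X (lev (k + 2)) p d * X (lev (k + 1)) q e))
      (Ld k s).1 (Ld k s).2 (fun p q hpq => by
        by_cases h : Th k p q s = 0
        · simp [h]
        · exact Submodule.smul_mem _ _ (mem_low2 (low2 (cmpR k s p q d e h hpq).le
            (le_refl _) (Or.inl (cmpR k s p q d e h hpq)))))
    have h2 : (∑ f, Th k d e f • X (lev k + 1) s f) ∈
      LowM [fst (.R k s d e), snd (.R k s d e)] :=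
      Submodule.sum_mem _ fun f _ => Submodule.smul_mem _ _ (mem_low1 _ _ _)
    have h3 : Tl (.R k s d e) = (∑ f, Th k d e f • X (lev k + 1) s f) -
      ((∑ p, ∑ q, Th k p q s • (X (lev (k + 2)) p d * X (lev (k + 1)) q e)) -
        Th k (Ld k s).1 (Ld k s).2 s •
          (X (lev (k + 2)) (Ld k s).1 d * X (lev (k + 1)) (Ld k s).2 e)) := by
      simp only [Tl, rel, relR, fst, snd, wd2, Th_lead, one_smul]
      abel
    rw [h3]
    exact Submodule.sub_mem _ h2 h1
  | C k s d e =>
    have h1 := sum2_sub_mem (LowM [fst (.C k s d e), snd (.C k s d e)])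
      (fun p q => Th k s p q • (X (lev k + 1) e q * X (lev (k + 1) + 1) d p))
      (Ld (k + 2) s).1 (Ld (k + 2) s).2 (fun p q hpq => by
        by_cases h : Th k s p q = 0
        · simp [h]
        · exact Submodule.smul_mem _ _ (mem_low2 (low2 (le_refl _)
            (cmpC k s p q d e h hpq).le (Or.inr (cmpC k s p q d e h hpq)))))
    have h2 : (∑ f, Th k f d e • X (lev (k + 2)) f s) ∈
      LowM [fst (.C k s d e), snd (.C k s d e)] :=
      Submodule.sum_mem _ fun f _ => Submodule.smul_mem _ _ (mem_low1 _ _ _)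
    have h3 : Tl (.C k s d e) = (∑ f, Th k f d e • X (lev (k + 2)) f s) -
      ((∑ p, ∑ q, Th k s p q • (X (lev k + 1) e q * X (lev (k + 1) + 1) d p)) -
        Th k s (Ld (k + 2) s).1 (Ld (k + 2) s).2 •
          (X (lev k + 1) e (Ld (k + 2) s).2 * X (lev (k + 1) + 1) d (Ld (k + 2) s).1)) := by
      simp only [Tl, rel, relC, fst, snd, wd2, Th_lead', one_smul]
      abel
    rw [h3]
    exact Submodule.sub_mem _ h2 h1

end TH288.Sys
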