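import Mathlib

/-!
A form of the diamond lemma for free algebras: rewriting rules whose leading words have length two.
-/

namespace TH288.Diamond

open Module

variable {k : Type*} [Field k] {α : Type*} {ι : Type*}

/-- The monomial in the free algebra attached to a word. -/
noncomputable def wd (k : Type*) [Field k] {α : Type*} (l : List α) : FreeAlgebra k α :=
  (l.map (FreeAlgebra.ι k)).prod

@[simp] lemma wd_nil : wd k ([] : List α) = 1 := rfl

lemma wd_cons (x : α) (l : List α) : wd k (x :: l) = FreeAlgebra.ι k x * wd k l := by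
  simp [wd]

lemma wd_append (l l' : List α) : wd k (l ++ l') = wd k l * wd k l' := by
  simp [wd]

lemma basis_apply (w : List α) :
    FreeAlgebra.basisFreeMonoid k α (FreeMonoid.ofList w) = wd k w := by
  simp only [FreeAlgebra.basisFreeMonoid, Basis.map_apply, Finsupp.coe_basisSingleOne]
  rw [LinearEquiv.symm_apply_eq]
  simp only [LinearEquiv.trans_apply, AlgEquiv.toLinearEquiv_apply]
  have : ∀ w : List α, FreeAlgebra.equivMonoidAlgebraFreeMonoid (R := k) (wd k w)
      = MonoidAlgebra.of k (FreeMonoid α) (FreeMonoid.ofList w) := by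
    intro w
    induction w with
    | nil => rw [wd_nil, map_one]; exact (map_one _).symm
    | cons x l ih =>
      rw [wd_cons, map_mul, ih]
      have h2 : FreeAlgebra.equivMonoidAlgebraFreeMonoid (R := k) (FreeAlgebra.ι k x)
        = MonoidAlgebra.of k (FreeMonoid α) (FreeMonoid.of x) := by
        simp [FreeAlgebra.equivMonoidAlgebraFreeMonoid]
      rw [h2, ← map_mul]
      rfl
  rw [this w]
  rfl

/-- `lt μ w w'`: in every context, `w` has smaller measure than `w'`. -/
def lt (μ : List α → ℕ) (w w' : List α) : Prop := ∀ u v, μ (u ++ w ++ v) < μ (u ++ w' ++ v)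

lemma two_occ {u v u' v' : List α} {a b a' b' : α}
    (h : u ++ [a, b] ++ v = u' ++ [a', b'] ++ v') (hl : u.length ≤ u'.length) :
    (u = u' ∧ a = a' ∧ b = b' ∧ v = v') ∨ (u' = u ++ [a] ∧ b = a' ∧ v = b' :: v') ∨
      (∃ m, u' = u ++ [a, b] ++ m ∧ v = m ++ [a', b'] ++ v') := by
  have h1 : u <+: u' := by
    apply List.prefix_of_prefix_length_le (l₃ := u ++ [a, b] ++ v)
    · rw [List.append_assoc]; exact List.prefix_append _ _
    · rw [h, List.append_assoc]; exact List.prefix_append _ _
    · exact hl
  obtain ⟨m0, rfl⟩ := h1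
  rw [List.append_assoc, List.append_assoc, List.append_assoc] at h
  have h2 := List.append_cancel_left h
  match m0, h2 with
  | [], h2 =>
    left
    simpa using h2
  | [x], h2 =>
    right; left
    simp only [List.cons_append, List.nil_append, List.cons.injEq] at h2
    obtain ⟨rfl, rfl, rfl⟩ := h2
    simp
  | x :: y :: m, h2 =>
    right; right
    simp only [List.cons_append, List.nil_append, List.cons.injEq] at h2
    obtain ⟨rfl, rfl, rfl⟩ := h2
    exact ⟨m, by simp, by simp⟩

section
variable (μ : List α → ℕ) (a b : ι → α) (T : ι → FreeAlgebra k α)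

/-- The relation attached to a rule. -/
noncomputable def poly (r : ι) : FreeAlgebra k α := wd k [a r, b r] - T r

/-- Combinations of words lower than `w`. -/
noncomputable def Low (w : List α) : Submodule k (FreeAlgebra k α) :=
  Submodule.span k {y | ∃ t, lt μ t w ∧ y = wd k t}

/-- Combinations of relations in context, all of whose leading words are lower than `w`. -/
noncomputable def J (w : List α) : Submodule k (FreeAlgebra k α) :=
  Submodule.span k {y | ∃ u r v, lt μ (u ++ [a r, b r] ++ v) w ∧
    y = wd k u * poly a b T r * wd k v}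

/-- The two-sided span of the relations. -/
noncomputable def K : Submodule k (FreeAlgebra k α) :=
  Submodule.span k {y | ∃ u r v, y = wd k u * poly a b T r * wd k v}

/-- partial functional -/
def Good (w0 : List α) (n : ℕ) (N : FreeAlgebra k α →ₗ[k] k) : Prop :=
  N (wd k w0) = 1 ∧ ∀ u r v, μ (u ++ [a r, b r] ++ v) < n → N (wd k u * poly a b T r * wd k v) = 0

variable {μ a b T}

lemma good_J {w0 : List α} {n : ℕ} {N : FreeAlgebra k α →ₗ[k] k} (hN : Good μ a b T w0 n N)
    {w u v : List α} (hw : μ (u ++ w ++ v) ≤ n) {y : FreeAlgebra k α} (hy : y ∈ J μ a b T w) :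
    N (wd k u * y * wd k v) = 0 := by
  induction hy using Submodule.span_induction with
  | mem y hy =>
    obtain ⟨u1, r, v1, h1, rfl⟩ := hy
    have h2 := hN.2 (u ++ u1) r (v1 ++ v) (by
      have := h1 u v
      simp only [List.append_assoc] at this hw ⊢
      omega)
    rw [wd_append, wd_append] at h2
    simpa only [mul_assoc] using h2
  | zero => simp
  | add x y _ _ hx hy => rw [mul_add, add_mul, map_add, hx, hy, add_zero]
  | smul c x _ hx => rw [mul_smul_comm, smul_mul_assoc, map_smul, hx, smul_zero]

lemma good_disj1 {w0 : List α} {n : ℕ} {N : FreeAlgebra k α →ₗ[k] k}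
    (hN : Good μ a b T w0 n N) {w u m v : List α} {r : ι}
    (hw : μ (u ++ w ++ m ++ [a r, b r] ++ v) ≤ n)
    {y : FreeAlgebra k α} (hy : y ∈ Low (k := k) μ w) :
    N (wd k u * y * wd k m * poly a b T r * wd k v) = 0 := by
  induction hy using Submodule.span_induction with
  | mem y hy =>
    obtain ⟨t, h1, rfl⟩ := hy
    have h2 := hN.2 (u ++ t ++ m) r v (by
      have := h1 u (m ++ [a r, b r] ++ v)
      simp only [List.append_assoc] at this hw ⊢
      omega)
    rw [wd_append, wd_append] at h2
    simpa only [mul_assoc] using h2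
  | zero => simp
  | add x y _ _ hx hy => simp only [mul_add, add_mul, map_add, hx, hy, add_zero]
  | smul c x _ hx => simp only [mul_smul_comm, smul_mul_assoc, map_smul, hx, smul_zero]

lemma good_disj2 {w0 : List α} {n : ℕ} {N : FreeAlgebra k α →ₗ[k] k}
    (hN : Good μ a b T w0 n N) {w u m v : List α} {r : ι}
    (hw : μ (u ++ [a r, b r] ++ m ++ w ++ v) ≤ n)
    {y : FreeAlgebra k α} (hy : y ∈ Low (k := k) μ w) :
    N (wd k u * poly a b T r * wd k m * y * wd k v) = 0 := by
  induction hy using Submodule.span_induction with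
  | mem y hy =>
    obtain ⟨t, h1, rfl⟩ := hy
    have h2 := hN.2 u r (m ++ t ++ v) (by
      have := h1 (u ++ [a r, b r] ++ m) v
      simp only [List.append_assoc] at this hw ⊢
      omega)
    rw [wd_append, wd_append] at h2
    simpa only [mul_assoc] using h2
  | zero => simp
  | add x y _ _ hx hy => simp only [mul_add, add_mul, map_add, hx, hy, add_zero]
  | smul c x _ hx => simp only [mul_smul_comm, smul_mul_assoc, map_smul, hx, smul_zero]

lemma core_aux (hT : ∀ r, T r ∈ Low (k := k) μ [a r, b r])
    (hinj : ∀ r r', a r = a r' → b r = b r' → r = r')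
    (hov : ∀ r r', b r = a r' →
      T r * FreeAlgebra.ι k (b r') - FreeAlgebra.ι k (a r) * T r' ∈ J μ a b T [a r, b r, b r'])
    {w0 : List α} {n : ℕ} {N : FreeAlgebra k α →ₗ[k] k}
    (hN : Good μ a b T w0 n N) {u v u' v' : List α} {r r' : ι}
    (hw : μ (u ++ [a r, b r] ++ v) = n)
    (h : u ++ [a r, b r] ++ v = u' ++ [a r', b r'] ++ v') (hl : u.length ≤ u'.length) :
    N (wd k u * T r * wd k v) = N (wd k u' * T r' * wd k v') := by
  rcases two_occ h hl with ⟨rfl, h1, h2, rfl⟩ | ⟨rfl, h1, rfl⟩ | ⟨m, rfl, rfl⟩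
  · rw [hinj r r' h1 h2]
  · have h3 := good_J hN (w := [a r, b r, b r']) (u := u) (v := v') (by
      have e : u ++ [a r, b r, b r'] ++ v' = u ++ [a r, b r] ++ b r' :: v' := by simp
      rw [e, hw]) (hov r r' h1)
    have e2 : wd k u * T r * wd k (b r' :: v') - wd k (u ++ [a r]) * T r' * wd k v' =
        wd k u * (T r * FreeAlgebra.ι k (b r') - FreeAlgebra.ι k (a r) * T r') * wd k v' := by
      rw [wd_append, wd_cons, wd_cons, wd_nil]
      simp only [mul_sub, sub_mul, mul_assoc, one_mul]
    rw [← sub_eq_zero, ← map_sub, e2, h3]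
  · have h3 := good_disj1 hN (w := [a r, b r]) (u := u) (m := m) (v := v') (r := r') (by
      have e : u ++ [a r, b r] ++ m ++ [a r', b r'] ++ v'
        = u ++ [a r, b r] ++ (m ++ [a r', b r'] ++ v') := by simp
      rw [e, hw]) (hT r)
    have h4 := good_disj2 hN (w := [a r', b r']) (u := u) (m := m) (v := v') (r := r) (by
      have e : u ++ [a r, b r] ++ m ++ [a r', b r'] ++ v'
        = u ++ [a r, b r] ++ (m ++ [a r', b r'] ++ v') := by simp
      rw [e, hw]) (hT r')
    have e3 : wd k u * T r * wd k (m ++ [a r', b r'] ++ v') =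
        wd k u * T r * wd k m * poly a b T r' * wd k v'
          + wd k u * T r * wd k m * T r' * wd k v' := by
      rw [wd_append, wd_append, poly]
      simp only [mul_sub, sub_mul, mul_assoc]
      abel
    have e4 : wd k (u ++ [a r, b r] ++ m) * T r' * wd k v' =
        wd k u * poly a b T r * wd k m * T r' * wd k v'
          + wd k u * T r * wd k m * T r' * wd k v' := by
      rw [wd_append, wd_append, poly]
      simp only [mul_sub, sub_mul, mul_assoc]
      abel
    rw [e3, e4, map_add, map_add, h3, h4]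

lemma core (hT : ∀ r, T r ∈ Low (k := k) μ [a r, b r])
    (hinj : ∀ r r', a r = a r' → b r = b r' → r = r')
    (hov : ∀ r r', b r = a r' →
      T r * FreeAlgebra.ι k (b r') - FreeAlgebra.ι k (a r) * T r' ∈ J μ a b T [a r, b r, b r'])
    {w0 : List α} {n : ℕ} {N : FreeAlgebra k α →ₗ[k] k}
    (hN : Good μ a b T w0 n N) {u v u' v' : List α} {r r' : ι}
    (hw : μ (u ++ [a r, b r] ++ v) = n)
    (h : u ++ [a r, b r] ++ v = u' ++ [a r', b r'] ++ v') :
    N (wd k u * T r * wd k v) = N (wd k u' * T r' * wd k v') := by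
  rcases le_total u.length u'.length with hl | hl
  · exact core_aux hT hinj hov hN hw h hl
  · exact (core_aux hT hinj hov hN (by rw [← h, hw]) h.symm hl).symm

lemma step (hT : ∀ r, T r ∈ Low (k := k) μ [a r, b r])
    (hinj : ∀ r r', a r = a r' → b r = b r' → r = r')
    (hov : ∀ r r', b r = a r' →
      T r * FreeAlgebra.ι k (b r') - FreeAlgebra.ι k (a r) * T r' ∈ J μ a b T [a r, b r, b r'])
    {w0 : List α} (hirr : ∀ u r v, w0 ≠ u ++ [a r, b r] ++ v)
    {n : ℕ} {N : FreeAlgebra k α →ₗ[k] k}
    (hN : Good μ a b T w0 n N) : ∃ N', Good μ a b T w0 (n + 1) N' := by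
  classical
  let C : List α → (List α × ι × List α) → Prop := fun w x => w = x.1 ++ [a x.2.1, b x.2.1] ++ x.2.2
  let g : List α → k := fun w =>
    if h : μ w = n ∧ ∃ x, C w x then
      N (wd k h.2.choose.1 * T h.2.choose.2.1 * wd k h.2.choose.2.2)
    else N (wd k w)
  let N' : FreeAlgebra k α →ₗ[k] k :=
    (FreeAlgebra.basisFreeMonoid k α).constr k (fun w => g (FreeMonoid.toList w))
  have hN' : ∀ w, N' (wd k w) = g w := by
    intro w
    have := (FreeAlgebra.basisFreeMonoid k α).constr_basis k (fun w => g (FreeMonoid.toList w))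
      (FreeMonoid.ofList w)
    rw [basis_apply] at this
    simpa using this
  have hlow : ∀ y ∈ Submodule.span k {y | ∃ t, μ t < n ∧ y = wd k t}, N' y = N y := by
    intro y hy
    induction hy using Submodule.span_induction with
    | mem y hy =>
      obtain ⟨t, h1, rfl⟩ := hy
      rw [hN']
      have : ¬ (μ t = n ∧ ∃ x, C t x) := by
        rintro ⟨h2, -⟩
        omega
      simp only [g, this, dite_false]
    | zero => simp
    | add x y _ _ hx hy => rw [map_add, map_add, hx, hy]
    | smul c x _ hx => rw [map_smul, map_smul, hx]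
  have hTlow : ∀ u r v, μ (u ++ [a r, b r] ++ v) ≤ n →
      wd k u * T r * wd k v ∈ Submodule.span k {y | ∃ t, μ t < n ∧ y = wd k t} := by
    intro u r v hle
    have : ∀ y ∈ Low (k := k) μ [a r, b r],
        wd k u * y * wd k v ∈ Submodule.span k {y | ∃ t, μ t < n ∧ y = wd k t} := by
      intro y hy
      induction hy using Submodule.span_induction with
      | mem y hy =>
        obtain ⟨t, h1, rfl⟩ := hy
        refine Submodule.subset_span ⟨u ++ t ++ v, ?_, ?_⟩
        · have := h1 u v
          omega
        · rw [wd_append, wd_append]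
      | zero => simp
      | add x y _ _ hx hy =>
        rw [mul_add, add_mul]; exact Submodule.add_mem _ hx hy
      | smul c x _ hx =>
        rw [mul_smul_comm, smul_mul_assoc]; exact Submodule.smul_mem _ _ hx
    exact this _ (hT r)
  refine ⟨N', ?_, ?_⟩
  · rw [hN']
    have : ¬ (μ w0 = n ∧ ∃ x, C w0 x) := by
      rintro ⟨-, x, hx⟩
      exact hirr _ _ _ hx
    simp only [g, this, dite_false]
    exact hN.1
  · intro u r v hlt
    have e : wd k u * poly a b T r * wd k v =
        wd k (u ++ [a r, b r] ++ v) - wd k u * T r * wd k v := by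
      rw [wd_append, wd_append, poly]
      simp only [mul_sub, sub_mul]
    rcases Nat.lt_succ_iff_lt_or_eq.mp hlt with h1 | h1
    · have h2 := hN.2 u r v h1
      have h3 : wd k u * poly a b T r * wd k v ∈
          Submodule.span k {y | ∃ t, μ t < n ∧ y = wd k t} := by
        rw [e]
        refine Submodule.sub_mem _ (Submodule.subset_span ⟨_, h1, rfl⟩) (hTlow u r v h1.le)
      rw [hlow _ h3, h2]
    · have h2 : μ (u ++ [a r, b r] ++ v) = n ∧ ∃ x, C (u ++ [a r, b r] ++ v) x :=
        ⟨h1, ⟨(u, r, v), rfl⟩⟩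
      rw [e, map_sub, hN', hlow _ (hTlow u r v h1.le)]
      simp only [g]
      rw [dif_pos h2, sub_eq_zero]
      have h4 := h2.2.choose_spec
      exact (core hT hinj hov hN h1 h4).symm

/-- The diamond lemma: an irreducible word is not in the span of the relations. -/
theorem wd_notMem_K (hT : ∀ r, T r ∈ Low (k := k) μ [a r, b r])
    (hinj : ∀ r r', a r = a r' → b r = b r' → r = r')
    (hov : ∀ r r', b r = a r' →
      T r * FreeAlgebra.ι k (b r') - FreeAlgebra.ι k (a r) * T r' ∈ J μ a b T [a r, b r, b r'])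
    {w0 : List α} (hirr : ∀ u r v, w0 ≠ u ++ [a r, b r] ++ v) :
    wd k w0 ∉ K a b T := by
  have hG : ∀ n, ∃ N, Good μ a b T w0 n N := by
    intro n
    induction n with
    | zero =>
      refine ⟨(FreeAlgebra.basisFreeMonoid k α).coord (FreeMonoid.ofList w0), ?_, ?_⟩
      · rw [← basis_apply]
        simp
      · intro u r v h
        omega
    | succ n ih =>
      obtain ⟨N, hN⟩ := ih
      exact step hT hinj hov hirr hN
  have hfin : ∀ y ∈ K a b T, ∃ n, ∀ N, ∀ m, n ≤ m → Good μ a b T w0 m N → N y = 0 := by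
    intro y hy
    induction hy using Submodule.span_induction with
    | mem y hy =>
      obtain ⟨u, r, v, rfl⟩ := hy
      refine ⟨μ (u ++ [a r, b r] ++ v) + 1, ?_⟩
      intro N m hm hN
      exact hN.2 u r v (by omega)
    | zero => exact ⟨0, by simp⟩
    | add x y _ _ hx hy =>
      obtain ⟨n1, h1⟩ := hx
      obtain ⟨n2, h2⟩ := hy
      refine ⟨max n1 n2, ?_⟩
      intro N m hm hN
      rw [map_add, h1 N m (le_trans (le_max_left _ _) hm) hN,
        h2 N m (le_trans (le_max_right _ _) hm) hN, add_zero]
    | smul c x _ hx =>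
      obtain ⟨n1, h1⟩ := hx
      refine ⟨n1, ?_⟩
      intro N m hm hN
      rw [map_smul, h1 N m hm hN, smul_zero]
  intro hmem
  obtain ⟨n, hn⟩ := hfin _ hmem
  obtain ⟨N, hN⟩ := hG n
  have := hn N n le_rfl hN
  rw [hN.1] at this
  exact one_ne_zero this

end

end TH288.Diamond
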