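import Pool.Agent.TH288.Main1

/-!
The Hopf algebra.
-/

namespace TH288.Sys

open TH288.Diamond TensorProduct

/-- The span of the relations. -/
noncomputable abbrev KK : Submodule ℂ (FreeAlgebra ℂ Lt) := K fst snd Tl

lemma KK_left (x y : FreeAlgebra ℂ Lt) (hy : y ∈ KK) : x * y ∈ KK := by
  induction x using FreeAlgebra.induction generalizing y with
  | grade0 r => rw [← Algebra.smul_def]; exact Submodule.smul_mem _ _ hy
  | grade1 a =>
    induction hy using Submodule.span_induction with
    | mem y hy =>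
      obtain ⟨u, r, v, rfl⟩ := hy
      refine Submodule.subset_span ⟨a :: u, r, v, ?_⟩
      rw [wd_cons]
      simp only [mul_assoc]
    | zero => simp
    | add x y _ _ hx hy => rw [mul_add]; exact Submodule.add_mem _ hx hy
    | smul c x _ hx => rw [mul_smul_comm]; exact Submodule.smul_mem _ _ hx
  | mul a b ha hb => rw [mul_assoc]; exact ha _ (hb _ hy)
  | add a b ha hb => rw [add_mul]; exact Submodule.add_mem _ (ha _ hy) (hb _ hy)

lemma KK_right (x y : FreeAlgebra ℂ Lt) (hy : y ∈ KK) : y * x ∈ KK := by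
  induction x using FreeAlgebra.induction generalizing y with
  | grade0 r =>
    rw [← Algebra.commutes, ← Algebra.smul_def]; exact Submodule.smul_mem _ _ hy
  | grade1 a =>
    induction hy using Submodule.span_induction with
    | mem y hy =>
      obtain ⟨u, r, v, rfl⟩ := hy
      refine Submodule.subset_span ⟨u, r, v ++ [a], ?_⟩
      rw [wd_append, wd_cons, wd_nil]
      simp only [mul_assoc, mul_one]
    | zero => simp
    | add x y _ _ hx hy => rw [add_mul]; exact Submodule.add_mem _ hx hy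
    | smul c x _ hx => rw [smul_mul_assoc]; exact Submodule.smul_mem _ _ hx
  | mul a b ha hb => rw [← mul_assoc]; exact hb _ (ha _ hy)
  | add a b ha hb => rw [mul_add]; exact Submodule.add_mem _ (ha _ hy) (hb _ hy)

/-- The two-sided ideal. -/
noncomputable def Iid : Ideal (FreeAlgebra ℂ Lt) where
  carrier := KK
  add_mem' := fun ha hb => Submodule.add_mem _ ha hb
  zero_mem' := Submodule.zero_mem _
  smul_mem' := fun c x hx => KK_left c x hx

instance : Iid.IsTwoSided := ⟨fun b ha => KK_right b _ ha⟩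

/-- The algebra `H`. -/
def H : Type := FreeAlgebra ℂ Lt ⧸ Iid

noncomputable instance : Ring H := inferInstanceAs (Ring (FreeAlgebra ℂ Lt ⧸ Iid))
noncomputable instance : Algebra ℂ H := inferInstanceAs (Algebra ℂ (FreeAlgebra ℂ Lt ⧸ Iid))

/-- The projection. -/
noncomputable def mkH : FreeAlgebra ℂ Lt →ₐ[ℂ] H := Ideal.Quotient.mkₐ ℂ Iid

lemma mkH_surj : Function.Surjective mkH := Ideal.Quotient.mkₐ_surjective ℂ Iid

lemma mkH_eq_zero {y : FreeAlgebra ℂ Lt} : mkH y = 0 ↔ y ∈ KK :=
  Ideal.Quotient.eq_zero_iff_mem (I := Iid)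

/-- The generators. -/
noncomputable def x (l : ℕ) (i j : I) : H := mkH (X l i j)

section
variable {A B : Type*} [Ring A] [Algebra ℂ A] [Ring B] [Algebra ℂ B]

lemma map_rel (f : A →ₐ[ℂ] B) (y : ℕ → I → I → A) (r : Rule) :
    f (rel y r) = rel (fun l i j => f (y l i j)) r := by
  cases r with
  | A l i j =>
    simp only [rel, relA, map_sub, map_sum, map_mul, apply_ite f, map_one, map_zero]
  | B l i j =>
    simp only [rel, relB, map_sub, map_sum, map_mul, apply_ite f, map_one, map_zero]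
  | R k s d e =>
    simp only [rel, relR, map_sub, map_sum, map_mul, map_smul]
  | C k s d e =>
    simp only [rel, relC, map_sub, map_sum, map_mul, map_smul]

lemma rel_mem (r : Rule) : rel X r ∈ KK :=
  Submodule.subset_span ⟨[], r, [], by simp [poly_eq]⟩

lemma rel_x (r : Rule) : rel x r = 0 := by
  have : rel x r = mkH (rel X r) := (map_rel mkH X r).symm
  rw [this, mkH_eq_zero]
  exact rel_mem r

lemma ker_le (f : FreeAlgebra ℂ Lt →ₐ[ℂ] B) (hf : ∀ r, f (rel X r) = 0)
    (a : FreeAlgebra ℂ Lt) (ha : a ∈ Iid) : f a = 0 := by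
  have ha' : a ∈ KK := ha
  induction ha' using Submodule.span_induction with
  | mem y hy =>
    obtain ⟨u, r, v, rfl⟩ := hy
    rw [map_mul, map_mul, poly_eq, hf, mul_zero, zero_mul]
  | zero => simp
  | add x y hx' hy' hx hy => rw [map_add, hx hx', hy hy', add_zero]
  | smul c x hx' hx => rw [map_smul, hx hx', smul_zero]

/-- The universal property. -/
noncomputable def liftH (y : ℕ → I → I → B) (hy : ∀ r, rel y r = 0) : H →ₐ[ℂ] B :=
  Ideal.Quotient.liftₐ Iid (FreeAlgebra.lift ℂ fun a : Lt => y a.1 a.2.1 a.2.2) (by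
    intro a ha
    refine ker_le _ (fun r => ?_) a ha
    rw [map_rel]
    have : (fun l i j => (FreeAlgebra.lift ℂ fun a : Lt => y a.1 a.2.1 a.2.2) (X l i j)) = y := by
      funext l i j
      simp [X]
    rw [this, hy])

lemma liftH_x (y : ℕ → I → I → B) (hy : ∀ r, rel y r = 0) (l : ℕ) (i j : I) :
    liftH y hy (x l i j) = y l i j := by
  have : liftH y hy (x l i j) =
    (FreeAlgebra.lift ℂ fun a : Lt => y a.1 a.2.1 a.2.2) (X l i j) := rfl
  rw [this]
  simp [X]

end

lemma H_induction {P : H → Prop} (hc : ∀ c : ℂ, P (algebraMap ℂ H c)) (hx : ∀ l i j, P (x l i j))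
    (hm : ∀ a b, P a → P b → P (a * b)) (ha : ∀ a b, P a → P b → P (a + b)) (h : H) : P h := by
  obtain ⟨y, rfl⟩ := mkH_surj h
  induction y using FreeAlgebra.induction with
  | grade0 r => rw [AlgHom.commutes]; exact hc r
  | grade1 a => exact hx a.1 a.2.1 a.2.2
  | mul a b h1 h2 => rw [map_mul]; exact hm _ _ h1 h2
  | add a b h1 h2 => rw [map_add]; exact ha _ _ h1 h2

lemma H_ext {B : Type*} [Semiring B] [Algebra ℂ B] {f g : H →ₐ[ℂ] B}
    (h : ∀ l i j, f (x l i j) = g (x l i j)) : f = g := by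
  ext y
  induction y using H_induction with
  | hc c => rw [AlgHom.commutes, AlgHom.commutes]
  | hx l i j => exact h l i j
  | hm a b h1 h2 => rw [map_mul, map_mul, h1, h2]
  | ha a b h1 h2 => rw [map_add, map_add, h1, h2]

lemma x_A (l : ℕ) (i j : I) : ∑ p, x l i p * x (l + 1) j p = if i = j then 1 else 0 :=
  sub_eq_zero.mp (rel_x (.A l i j))
lemma x_B (l : ℕ) (i j : I) : ∑ p, x (l + 1) p i * x l p j = if i = j then 1 else 0 :=
  sub_eq_zero.mp (rel_x (.B l i j))
lemma x_R (k : ℕ) (s d e : I) :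
    (∑ p, ∑ q, Th k p q s • (x (lev (k + 2)) p d * x (lev (k + 1)) q e)) =
    ∑ f, Th k d e f • x (lev k + 1) s f :=
  sub_eq_zero.mp (rel_x (.R k s d e))
lemma x_C (k : ℕ) (s d e : I) :
    (∑ p, ∑ q, Th k s p q • (x (lev k + 1) e q * x (lev (k + 1) + 1) d p)) =
    ∑ f, Th k f d e • x (lev (k + 2)) f s :=
  sub_eq_zero.mp (rel_x (.C k s d e))

/-- The element `w` is nonzero. -/
lemma w_ne : x 0 2 7 * x 0 11 7 ≠ 0 := by
  intro h
  have h1 : mkH (wd ℂ w0) = 0 := by
    rw [w0, wd2, map_mul]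
    exact h
  rw [mkH_eq_zero] at h1
  exact w0_notMem h1

end TH288.Sys
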