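import Pool.Agent.TH288.Hopf

/-!
The Hopf algebra structure.
-/

namespace TH288.Sys

open TH288.Diamond TensorProduct

section
variable {M : Type*} [AddCommMonoid M]

lemma s3 (g : I → I → I → M) : ∑ e, ∑ p, ∑ q, g e p q = ∑ p, ∑ q, ∑ e, g e p q := by
  rw [Finset.sum_comm]
  exact Finset.sum_congr rfl fun p _ => Finset.sum_comm

lemma s4 (g : I → I → I → I → M) :
    ∑ p, ∑ q, ∑ a, ∑ b, g p q a b = ∑ a, ∑ b, ∑ p, ∑ q, g p q a b := by
  have h1 : ∀ p, ∑ q, ∑ a, ∑ b, g p q a b = ∑ a, ∑ b, ∑ q, g p q a b := fun p => s3 (g p)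
  simp only [h1]
  exact s3 (fun p a b => ∑ q, g p q a b)

end

/-- comultiplication on generators. -/
noncomputable def dl (l : ℕ) (i j : I) : H ⊗[ℂ] H := ∑ p, x l i p ⊗ₜ[ℂ] x l p j

lemma dl_mul (l l' : ℕ) (i j i' j' : I) :
    dl l i j * dl l' i' j' =
      ∑ a, ∑ b, (x l i a * x l' i' b) ⊗ₜ[ℂ] (x l a j * x l' b j') := by
  simp only [dl, Finset.sum_mul, Finset.mul_sum, Algebra.TensorProduct.tmul_mul_tmul]
  rw [Finset.sum_comm]

lemma dl_rel (r : Rule) : rel dl r = 0 := by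
  cases r with
  | A l i j =>
    simp only [rel, relA, sub_eq_zero, dl_mul]
    have e1 : ∑ p, ∑ a, ∑ b, (x l i a * x (l + 1) j b) ⊗ₜ[ℂ] (x l a p * x (l + 1) b p) =
        ∑ a, ∑ b, (x l i a * x (l + 1) j b) ⊗ₜ[ℂ] (∑ p, x l a p * x (l + 1) b p) := by
      rw [s3]
      simp only [TensorProduct.tmul_sum]
    rw [e1]
    simp only [x_A, TensorProduct.tmul_ite, Finset.sum_ite_eq,
      Finset.mem_univ, if_true]
    rw [← TensorProduct.sum_tmul, x_A]
    split_ifs <;> simp [Algebra.TensorProduct.one_def]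
  | B l i j =>
    simp only [rel, relB, sub_eq_zero, dl_mul]
    have e1 : ∑ p, ∑ a, ∑ b, (x (l + 1) p a * x l p b) ⊗ₜ[ℂ] (x (l + 1) a i * x l b j) =
        ∑ a, ∑ b, (∑ p, x (l + 1) p a * x l p b) ⊗ₜ[ℂ] (x (l + 1) a i * x l b j) := by
      rw [s3]
      simp only [TensorProduct.sum_tmul]
    rw [e1]
    simp only [x_B, TensorProduct.ite_tmul, Finset.sum_ite_eq,
      Finset.mem_univ, if_true]
    rw [← TensorProduct.tmul_sum, x_B]
    split_ifs <;> simp [Algebra.TensorProduct.one_def]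
  | R k s d e =>
    simp only [rel, relR, sub_eq_zero, dl_mul]
    have e1 : ∑ p, ∑ q, Th k p q s • ∑ a, ∑ b, (x (lev (k + 2)) p a * x (lev (k + 1)) q b) ⊗ₜ[ℂ]
          (x (lev (k + 2)) a d * x (lev (k + 1)) b e) =
        ∑ a, ∑ b, (∑ p, ∑ q, Th k p q s • (x (lev (k + 2)) p a * x (lev (k + 1)) q b)) ⊗ₜ[ℂ]
          (x (lev (k + 2)) a d * x (lev (k + 1)) b e) := by
      simp only [TensorProduct.sum_tmul, Finset.smul_sum, TensorProduct.smul_tmul']
      exact s4 _
    have e2 : ∑ a, ∑ b, (∑ f, Th k a b f • x (lev k + 1) s f) ⊗ₜ[ℂ]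
          (x (lev (k + 2)) a d * x (lev (k + 1)) b e) =
        ∑ f, x (lev k + 1) s f ⊗ₜ[ℂ]
          (∑ a, ∑ b, Th k a b f • (x (lev (k + 2)) a d * x (lev (k + 1)) b e)) := by
      rw [s3 (fun f a b => x (lev k + 1) s f ⊗ₜ[ℂ]
        (Th k a b f • (x (lev (k + 2)) a d * x (lev (k + 1)) b e)))
        |> fun h => (by simpa only [TensorProduct.tmul_sum] using h :
          ∑ f, x (lev k + 1) s f ⊗ₜ[ℂ]
          (∑ a, ∑ b, Th k a b f • (x (lev (k + 2)) a d * x (lev (k + 1)) b e)) = _)]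
      simp only [TensorProduct.sum_tmul, TensorProduct.tmul_smul, TensorProduct.smul_tmul']
    rw [e1]
    simp only [x_R]
    rw [e2]
    simp only [x_R, dl, TensorProduct.tmul_sum, Finset.smul_sum, TensorProduct.tmul_smul]
    exact Finset.sum_comm
  | C k s d e =>
    simp only [rel, relC, sub_eq_zero, dl_mul]
    have e1 : ∑ p, ∑ q, Th k s p q • ∑ a, ∑ b, (x (lev k + 1) e a * x (lev (k + 1) + 1) d b) ⊗ₜ[ℂ]
          (x (lev k + 1) a q * x (lev (k + 1) + 1) b p) =
        ∑ a, ∑ b, (x (lev k + 1) e a * x (lev (k + 1) + 1) d b) ⊗ₜ[ℂ]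
          (∑ p, ∑ q, Th k s p q • (x (lev k + 1) a q * x (lev (k + 1) + 1) b p)) := by
      simp only [TensorProduct.tmul_sum, Finset.smul_sum, TensorProduct.tmul_smul]
      exact s4 _
    have e2 : ∑ a, ∑ b, (x (lev k + 1) e a * x (lev (k + 1) + 1) d b) ⊗ₜ[ℂ]
          (∑ f, Th k f b a • x (lev (k + 2)) f s) =
        ∑ f, (∑ b, ∑ a, Th k f b a • (x (lev k + 1) e a * x (lev (k + 1) + 1) d b)) ⊗ₜ[ℂ]
          x (lev (k + 2)) f s := by
      simp only [TensorProduct.tmul_sum, TensorProduct.sum_tmul, TensorProduct.tmul_smul,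
        TensorProduct.smul_tmul']
      rw [s3 (fun f b a => (Th k f b a • (x (lev k + 1) e a * x (lev (k + 1) + 1) d b)) ⊗ₜ[ℂ]
          x (lev (k + 2)) f s)]
      exact Finset.sum_comm
    rw [e1]
    simp only [x_C]
    rw [e2]
    simp only [x_C, dl, TensorProduct.sum_tmul, Finset.smul_sum, TensorProduct.smul_tmul']
    exact Finset.sum_comm

/-- counit on generators. -/
noncomputable def ep (_l : ℕ) (i j : I) : ℂ := if i = j then 1 else 0

lemma ep_rel (r : Rule) : rel ep r = 0 := by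
  cases r with
  | A l i j =>
    simp only [rel, relA, sub_eq_zero, ep]
    simp [eq_comm]
  | B l i j =>
    simp only [rel, relB, sub_eq_zero, ep]
    simp [eq_comm]
  | R k s d e =>
    simp only [rel, relR, sub_eq_zero, ep]
    simp
  | C k s d e =>
    simp only [rel, relC, sub_eq_zero, ep]
    simp

/-- antipode on generators. -/
noncomputable def an (l : ℕ) (i j : I) : Hᵐᵒᵖ := MulOpposite.op (x (l + 1) j i)

lemma an_mul (l l' : ℕ) (i j i' j' : I) :
    an l i j * an l' i' j' = MulOpposite.op (x (l' + 1) j' i' * x (l + 1) j i) := rfl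

lemma op_sum' {ι : Type*} (s : Finset ι) (f : ι → H) :
    ∑ i ∈ s, MulOpposite.op (f i) = MulOpposite.op (∑ i ∈ s, f i) := by
  exact (map_sum MulOpposite.opAddEquiv f s).symm

lemma an_rel (r : Rule) : rel an r = 0 := by
  cases r with
  | A l i j =>
    simp only [rel, relA, sub_eq_zero, an_mul, op_sum']
    rw [show (∑ p, x (l + 1 + 1) p j * x (l + 1) p i) = if j = i then 1 else 0 from x_B (l + 1) j i]
    split_ifs with h1 h2 h2
    · rfl
    · exact absurd h1.symm h2
    · exact absurd h2.symm h1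
    · rfl
  | B l i j =>
    simp only [rel, relB, sub_eq_zero, an_mul, op_sum']
    rw [show (∑ p, x (l + 1) j p * x (l + 1 + 1) i p) = if j = i then 1 else 0 from x_A (l + 1) j i]
    split_ifs with h1 h2 h2
    · rfl
    · exact absurd h1.symm h2
    · exact absurd h2.symm h1
    · rfl
  | R k s d e =>
    have h := x_C (k + 1) s d e
    have hl : lev (k + 1 + 2) = lev k + 2 := lev3 k
    rw [hl] at h
    simp only [Th_rot] at h
    simp only [rel, relR, sub_eq_zero, ← MulOpposite.op_smul, op_sum', an]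
    exact congrArg MulOpposite.op h
  | C k s d e =>
    have h := x_R (k + 2) s d e
    have hl : lev (k + 2 + 2) = lev (k + 1) + 2 := lev3 (k + 1)
    have hl2 : lev (k + 2 + 1) = lev k + 2 := lev3 k
    rw [hl, hl2] at h
    simp only [Th_rot'] at h
    simp only [rel, relC, sub_eq_zero, ← MulOpposite.op_smul, op_sum', an]
    exact congrArg MulOpposite.op h

/-- comultiplication. -/
noncomputable def Dl : H →ₐ[ℂ] H ⊗[ℂ] H := liftH dl dl_rel
/-- counit. -/
noncomputable def Ep : H →ₐ[ℂ] ℂ := liftH ep ep_rel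
/-- antipode, as a map to the opposite algebra. -/
noncomputable def An : H →ₐ[ℂ] Hᵐᵒᵖ := liftH an an_rel

lemma Dl_x (l : ℕ) (i j : I) : Dl (x l i j) = ∑ p, x l i p ⊗ₜ[ℂ] x l p j := liftH_x _ _ _ _ _
lemma Ep_x (l : ℕ) (i j : I) : Ep (x l i j) = if i = j then 1 else 0 := liftH_x _ _ _ _ _
lemma An_x (l : ℕ) (i j : I) : An (x l i j) = MulOpposite.op (x (l + 1) j i) := liftH_x _ _ _ _ _

noncomputable instance : Bialgebra ℂ H := Bialgebra.ofAlgHom Dl Ep
  (by
    apply H_ext
    intro l i j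
    simp only [AlgHom.comp_apply, Dl_x, map_sum, Algebra.TensorProduct.map_tmul, AlgHom.id_apply]
    simp only [TensorProduct.sum_tmul, TensorProduct.tmul_sum, map_sum]
    exact Finset.sum_comm)
  (by
    apply H_ext
    intro l i j
    simp [Dl_x, Ep_x, TensorProduct.ite_tmul])
  (by
    apply H_ext
    intro l i j
    simp [Dl_x, Ep_x, TensorProduct.tmul_ite])

end TH288.Sys
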