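import Pool.Agent.TH288.Hopf2

/-!
The antipode, finite generation, and the main theorem.
-/

namespace TH288.Sys

open TH288.Diamond TensorProduct

/-- The antipode as a linear map. -/
noncomputable def S : H →ₗ[ℂ] H :=
  (MulOpposite.opLinearEquiv ℂ).symm.toLinearMap ∘ₗ An.toLinearMap

lemma S_apply (h : H) : S h = MulOpposite.unop (An h) := rfl

lemma S_mul (a b : H) : S (a * b) = S b * S a := by
  simp [S_apply]

lemma S_one : S 1 = 1 := by simp [S_apply]

lemma S_x (l : ℕ) (i j : I) : S (x l i j) = x (l + 1) j i := by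
  rw [S_apply, An_x]; rfl

lemma S_algebraMap (c : ℂ) : S (algebraMap ℂ H c) = algebraMap ℂ H c := by
  rw [S_apply, AlgHom.commutes]; rfl

lemma comul_eq (h : H) : Coalgebra.comul (R := ℂ) h = Dl h := rfl
lemma counit_eq (h : H) : Coalgebra.counit (R := ℂ) h = Ep h := rfl

/-- left antipode functional. -/
noncomputable def m1 : H ⊗[ℂ] H →ₗ[ℂ] H := LinearMap.mul' ℂ H ∘ₗ S.rTensor H
/-- right antipode functional. -/
noncomputable def m2 : H ⊗[ℂ] H →ₗ[ℂ] H := LinearMap.mul' ℂ H ∘ₗ S.lTensor H

lemma m1_tmul (a b : H) : m1 (a ⊗ₜ[ℂ] b) = S a * b := by simp [m1]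
lemma m2_tmul (a b : H) : m2 (a ⊗ₜ[ℂ] b) = a * S b := by simp [m2]

lemma m1_mul_tmul (T : H ⊗[ℂ] H) (a b : H) : m1 (T * (a ⊗ₜ[ℂ] b)) = S a * m1 T * b := by
  induction T using TensorProduct.induction_on with
  | zero => simp
  | tmul u v =>
    rw [Algebra.TensorProduct.tmul_mul_tmul, m1_tmul, m1_tmul, S_mul]
    simp only [mul_assoc]
  | add u v hu hv => rw [add_mul, map_add, map_add, hu, hv, mul_add, add_mul]

lemma m2_tmul_mul (T : H ⊗[ℂ] H) (a b : H) : m2 ((a ⊗ₜ[ℂ] b) * T) = a * m2 T * S b := by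
  induction T using TensorProduct.induction_on with
  | zero => simp
  | tmul u v =>
    rw [Algebra.TensorProduct.tmul_mul_tmul, m2_tmul, m2_tmul, S_mul]
    simp only [mul_assoc]
  | add u v hu hv => rw [mul_add, map_add, map_add, hu, hv, mul_add, add_mul]

lemma m1_mul (T U : H ⊗[ℂ] H) (c : ℂ) (hT : m1 T = algebraMap ℂ H c) :
    m1 (T * U) = c • m1 U := by
  induction U using TensorProduct.induction_on with
  | zero => simp
  | tmul u v =>
    rw [m1_mul_tmul, hT, m1_tmul, ← Algebra.commutes, Algebra.smul_def, mul_assoc]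
  | add u v hu hv => rw [mul_add, map_add, map_add, hu, hv, smul_add]

lemma m2_mul (T U : H ⊗[ℂ] H) (c : ℂ) (hU : m2 U = algebraMap ℂ H c) :
    m2 (T * U) = c • m2 T := by
  induction T using TensorProduct.induction_on with
  | zero => simp
  | tmul u v =>
    rw [m2_tmul_mul, hU, m2_tmul, ← Algebra.commutes, Algebra.smul_def, mul_assoc]
  | add u v hu hv => rw [add_mul, map_add, map_add, hu, hv, smul_add]

lemma m1_Dl (h : H) : m1 (Dl h) = algebraMap ℂ H (Ep h) := by
  induction h using H_induction with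
  | hc c =>
    rw [AlgHom.commutes, AlgHom.commutes, Algebra.TensorProduct.algebraMap_apply, m1_tmul,
      S_algebraMap, mul_one]
    rfl
  | hx l i j =>
    rw [Dl_x, Ep_x, map_sum]
    simp only [m1_tmul, S_x]
    rw [x_B]
    split_ifs <;> simp
  | hm a b ha hb =>
    rw [map_mul, m1_mul _ _ _ ha, hb, map_mul, map_mul, Algebra.smul_def]
  | ha a b ha hb => rw [map_add, map_add, map_add, map_add, ha, hb]

lemma m2_Dl (h : H) : m2 (Dl h) = algebraMap ℂ H (Ep h) := by
  induction h using H_induction with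
  | hc c =>
    rw [AlgHom.commutes, AlgHom.commutes, Algebra.TensorProduct.algebraMap_apply, m2_tmul,
      S_one, mul_one]
    rfl
  | hx l i j =>
    rw [Dl_x, Ep_x, map_sum]
    simp only [m2_tmul, S_x]
    rw [x_A]
    split_ifs <;> simp
  | hm a b ha hb =>
    rw [map_mul Dl, m2_mul _ _ _ hb, ha, map_mul Ep, Algebra.smul_def,
      ← map_mul (algebraMap ℂ H), mul_comm]
  | ha a b ha hb => rw [map_add, map_add, map_add, map_add, ha, hb]

noncomputable instance : HopfAlgebra ℂ H where
  antipode := S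
  mul_antipode_rTensor_comul := by
    ext h
    exact m1_Dl h
  mul_antipode_lTensor_comul := by
    ext h
    exact m2_Dl h

lemma antipode_eq : HopfAlgebra.antipode ℂ (A := H) = S := rfl

/-- `w` is killed by the antipode. -/
lemma S_w : S (x 0 2 7 * x 0 11 7) = 0 := by
  rw [S_mul, S_x, S_x]
  have h := x_C 0 5 7 7
  have e0 : cyc 0 = 0 := rfl
  have h1 : ∀ p q, Th 0 5 p q = if (p = 2 ∧ q = 11) then 1 else 0 := by
    intro p q
    unfold Th
    rw [e0]
    by_cases h : p = 2 ∧ q = 11
    · rw [if_pos ((T10 p q).mpr h), if_pos h]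
    · rw [if_neg (fun h' => h ((T10 p q).mp h')), if_neg h]
  have h2 : ∀ f, Th 0 f 7 7 = 0 := by
    intro f
    unfold Th
    rw [e0, T9 f]
    simp
  simp only [h1, h2, zero_smul, Finset.sum_const_zero] at h
  rw [Finset.sum_eq_single 2, Finset.sum_eq_single 11] at h
  · simpa [lev] using h
  · intro q _ hq
    simp [hq]
  · intro h'; exact absurd (Finset.mem_univ _) h'
  · intro p _ hp
    simp [hp]
  · intro h'; exact absurd (Finset.mem_univ _) h'

/-- The generating set. -/
noncomputable def gens : Subalgebra ℂ H := Algebra.adjoin ℂ (Set.range fun p : I × I => x 0 p.1 p.2)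

lemma Th_tab (k : ℕ) (hk : k % 3 = 0) (f f' : I) :
    Th k (tb 0 f).1 (tb 0 f).2 f' = if f' = f then 1 else 0 := by
  unfold Th
  have : cyc k = 0 := Fin.ext hk
  rw [this]
  by_cases h : f' = f
  · rw [if_pos ((T8 f f').mpr h), if_pos h]
  · rw [if_neg (fun h' => h ((T8 f f').mp h')), if_neg h]

lemma x_mem_gens (l : ℕ) : ∀ i j, x l i j ∈ gens := by
  induction l with
  | zero => exact fun i j => Algebra.subset_adjoin ⟨(i, j), rfl⟩
  | succ l ih =>
    intro s f
    rcases Nat.even_or_odd' l with ⟨j, rfl | rfl⟩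
    · have h := x_R (3 * j) s (tb 0 f).1 (tb 0 f).2
      have e1 : lev (3 * j + 2) = 2 * j := by unfold lev; omega
      have e2 : lev (3 * j + 1) = 2 * j := by unfold lev; omega
      have e3 : lev (3 * j) = 2 * j := by unfold lev; omega
      rw [e1, e2, e3] at h
      simp only [Th_tab (3 * j) (by omega), ite_smul, one_smul, zero_smul, Finset.sum_ite_eq',
        Finset.mem_univ, if_true] at h
      rw [← h]
      exact Subalgebra.sum_mem _ fun p _ => Subalgebra.sum_mem _ fun q _ =>
        Subalgebra.smul_mem _ (Subalgebra.mul_mem _ (ih _ _) (ih _ _)) _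
    · have h := x_C (3 * j + 1) f (tb 0 s).1 (tb 0 s).2
      have e1 : lev (3 * j + 1) = 2 * j := by unfold lev; omega
      have e2 : lev (3 * j + 1 + 1) = 2 * j := by unfold lev; omega
      have e3 : lev (3 * j + 1 + 2) = 2 * j + 1 + 1 := by unfold lev; omega
      rw [e1, e2, e3] at h
      have e4 : ∀ g, Th (3 * j + 1) g (tb 0 s).1 (tb 0 s).2 = if g = s then 1 else 0 := by
        intro g
        rw [Th_rot, Th_tab (3 * j) (by omega)]
      simp only [e4, ite_smul, one_smul, zero_smul, Finset.sum_ite_eq',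
        Finset.mem_univ, if_true] at h
      rw [← h]
      exact Subalgebra.sum_mem _ fun p _ => Subalgebra.sum_mem _ fun q _ =>
        Subalgebra.smul_mem _ (Subalgebra.mul_mem _ (ih _ _) (ih _ _)) _

lemma gens_eq_top : gens = ⊤ := by
  rw [eq_top_iff]
  intro h _
  induction h using H_induction with
  | hc c => exact Subalgebra.algebraMap_mem _ c
  | hx l i j => exact x_mem_gens l i j
  | hm a b ha hb => exact Subalgebra.mul_mem _ (ha trivial) (hb trivial)
  | ha a b ha hb => exact Subalgebra.add_mem _ (ha trivial) (hb trivial)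

lemma H_finiteType : Algebra.FiniteType ℂ H :=
  ⟨⟨Set.Finite.toFinset (Set.finite_range fun p : I × I => x 0 p.1 p.2), by
    rw [Set.Finite.coe_toFinset]
    exact gens_eq_top⟩⟩

lemma Th_tab2 (f f' : I) :
    Th 0 f' (tb 2 f).1 (tb 2 f).2 = if f' = f then 1 else 0 := by
  unfold Th
  have : cyc 0 = 0 := rfl
  rw [this]
  by_cases h : f' = f
  · rw [if_pos ((T12 f f').mpr h), if_pos h]
  · rw [if_neg (fun h' => h ((T12 f f').mp h')), if_neg h]

/-- The antipode is surjective. -/
lemma antipode_surjective : Function.Surjective (HopfAlgebra.antipode ℂ (A := H)) := by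
  rw [antipode_eq]
  intro h
  induction h using H_induction with
  | hc c => exact ⟨algebraMap ℂ H c, S_algebraMap c⟩
  | hx l i j =>
    cases l with
    | succ l => exact ⟨x l j i, S_x l j i⟩
    | zero =>
      have h := x_C 0 j (tb 2 i).1 (tb 2 i).2
      simp only [Th_tab2, ite_smul, one_smul, zero_smul, Finset.sum_ite_eq',
        Finset.mem_univ, if_true] at h
      refine ⟨∑ p, ∑ q, Th 0 j p q • (x 0 p (tb 2 i).1 * x 0 q (tb 2 i).2), ?_⟩
      simp only [map_sum, map_smul, S_mul, S_x]
      exact h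
  | hm a b ha hb =>
    obtain ⟨a', rfl⟩ := ha
    obtain ⟨b', rfl⟩ := hb
    exact ⟨b' * a', S_mul b' a'⟩
  | ha a b ha hb =>
    obtain ⟨a', rfl⟩ := ha
    obtain ⟨b', rfl⟩ := hb
    exact ⟨a' + b', map_add S a' b'⟩

lemma antipode_not_injective : ¬ Function.Injective (HopfAlgebra.antipode ℂ (A := H)) := by
  intro h
  rw [antipode_eq] at h
  have := h (S_w.trans (map_zero S).symm)
  exact w_ne this

end TH288.Sys
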