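import Pool.Agent.TH288.Ov

/-!
Confluence, combined.
-/

namespace TH288.Sys

open TH288.Diamond

lemma pA_even {l : ℕ} (h : l % 2 = 0) : pA l = 0 := by simp [pA, h]
lemma pA_odd {l : ℕ} (h : l % 2 = 1) : pA l = 7 := by simp [pA, h]
lemma pB_even {l : ℕ} (h : l % 2 = 0) : pB l = 7 := by simp [pB, h]
lemma pB_odd {l : ℕ} (h : l % 2 = 1) : pB l = 0 := by simp [pB, h]

lemma Ld1_ne (k : ℕ) (s : I) : (Ld k s).1 ≠ 7 := (T4 _ s).1
lemma Ld2_ne (k : ℕ) (s : I) : (Ld k s).2 ≠ 0 := (T4 _ s).2

lemma cyc_val (k : ℕ) : (cyc k).val = k % 3 := rfl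

lemma cyc_eq {k k' : ℕ} (h : cyc k = cyc k') : k % 3 = k' % 3 := by
  have := congrArg Fin.val h
  simpa [cyc_val] using this

lemma hov (r r' : Rule) (h : snd r = fst r') :
    Tl r * FreeAlgebra.ι ℂ (snd r') - FreeAlgebra.ι ℂ (fst r) * Tl r' ∈
      JM [fst r, snd r, snd r'] := by
  apply ov_red h
  cases r with
  | A l i j =>
    cases r' with
    | A l' i' j' =>
      simp only [fst, snd, Prod.mk.injEq] at h
      obtain ⟨rfl, h1, h2⟩ := h
      exact absurd h2 (pA_ne l)
    | B l' i' j' =>
      simp only [fst, snd, Prod.mk.injEq] at h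
      obtain ⟨h0, h1, h2⟩ := h
      obtain rfl : l = l' := by omega
      subst h1 h2
      exact ovAB l i j'
    | R k s d e =>
      simp only [fst, snd, Prod.mk.injEq] at h
      obtain ⟨h0, h1, h2⟩ := h
      obtain ⟨k', rfl⟩ : ∃ k', k = k' + 1 := by
        refine ⟨k - 1, ?_⟩
        unfold lev at h0
        omega
      have h3 : lev (k' + 1 + 2) = lev k' + 2 := lev3 k'
      obtain rfl : l = lev k' + 1 := by omega
      subst h1 h2
      have := ovAR k' i s e
      simpa only [rel, fst, snd, Xi, h3] using this
    | C k s d e =>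
      simp only [fst, snd, Prod.mk.injEq] at h
      obtain ⟨h0, h1, h2⟩ := h
      have h3 := lev_even k
      rw [pA_even (by omega)] at h2
      exact absurd h2.symm (Ld2_ne _ _)
  | B l i j =>
    cases r' with
    | A l' i' j' =>
      simp only [fst, snd, Prod.mk.injEq] at h
      obtain ⟨h0, h1, h2⟩ := h
      subst h0 h1 h2
      exact ovBA l i j'
    | B l' i' j' =>
      simp only [fst, snd, Prod.mk.injEq] at h
      obtain ⟨rfl, h1, h2⟩ := h
      exact absurd h1 (pB_ne l')
    | R k s d e =>
      simp only [fst, snd, Prod.mk.injEq] at h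
      obtain ⟨h0, h1, h2⟩ := h
      have h3 := lev_even (k + 2)
      rw [pB_even (by omega)] at h1
      exact absurd h1.symm (Ld1_ne _ _)
    | C k s d e =>
      simp only [fst, snd, Prod.mk.injEq] at h
      obtain ⟨h0, h1, h2⟩ := h
      subst h0 h1 h2
      exact ovBC k i s d
  | R k s d e =>
    cases r' with
    | A l' i' j' =>
      simp only [fst, snd, Prod.mk.injEq] at h
      obtain ⟨h0, h1, h2⟩ := h
      subst h0 h1 h2
      exact ovRA k s d j'
    | B l' i' j' =>
      simp only [fst, snd, Prod.mk.injEq] at h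
      obtain ⟨h0, h1, h2⟩ := h
      have h3 := lev_even (k + 1)
      rw [pB_odd (by omega)] at h1
      exact absurd h1 (Ld2_ne _ _)
    | R k' s' d' e' =>
      simp only [fst, snd, Prod.mk.injEq] at h
      obtain ⟨h0, h1, h2⟩ := h
      obtain ⟨h3, h4, h5⟩ := T3 (cyc k) (cyc k') s s' h1
      rw [← cyc_succ] at h3
      have h6 := cyc_eq h3
      obtain rfl : k = k' + 1 := by
        unfold lev at h0
        omega
      subst h2 h4 h5
      have h7 : lev (k' + 1 + 2) = lev k' + 2 := lev3 k'
      have h8 : lev (k' + 1 + 1) = lev (k' + 2) := rfl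
      have := ovRR k' d e e'
      simpa only [rel, fst, snd, Xi, h7, h8, Ld7a, Ld7b, Ld0] using this
    | C k' s' d' e' =>
      simp only [fst, snd, Prod.mk.injEq] at h
      obtain ⟨h0, h1, h2⟩ := h
      have h3 := lev_even (k + 1)
      have h4 := lev_even k'
      omega
  | C k s d e =>
    cases r' with
    | A l' i' j' =>
      simp only [fst, snd, Prod.mk.injEq] at h
      obtain ⟨h0, h1, h2⟩ := h
      have h3 := lev_even (k + 1)
      rw [pA_odd (by omega)] at h2
      exact absurd h2 (Ld1_ne _ _)
    | B l' i' j' =>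
      simp only [fst, snd, Prod.mk.injEq] at h
      obtain ⟨h0, h1, h2⟩ := h
      obtain rfl : l' = lev (k + 1) := by omega
      subst h1 h2
      exact ovCB k s e j'
    | R k' s' d' e' =>
      simp only [fst, snd, Prod.mk.injEq] at h
      obtain ⟨h0, h1, h2⟩ := h
      have h3 := lev_even (k + 1)
      have h4 := lev_even (k' + 2)
      omega
    | C k' s' d' e' =>
      simp only [fst, snd, Prod.mk.injEq] at h
      obtain ⟨h0, h1, h2⟩ := h
      obtain ⟨h3, h4, h5⟩ := T3 (cyc (k' + 2)) (cyc (k + 2)) s' s h2.symm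
      rw [← cyc_succ] at h3
      have h6 := cyc_eq h3
      obtain rfl : k' = k + 1 := by
        unfold lev at h0
        omega
      subst h1 h4 h5
      have h8 : lev (k + 1 + 1) = lev (k + 2) := rfl
      have h9 : k + 1 + 2 = k + 2 + 1 := rfl
      have := ovCC k d e d'
      simpa only [rel, fst, snd, Xi, h8, h9, Ld7a, Ld7b, Ld0] using this

lemma hinj (r r' : Rule) (h1 : fst r = fst r') (h2 : snd r = snd r') : r = r' := by
  cases r with
  | A l i j =>
    cases r' with
    | A l' i' j' =>
      simp only [fst, snd, Prod.mk.injEq] at h1 h2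
      obtain ⟨rfl, rfl, -⟩ := h1
      obtain ⟨-, rfl, -⟩ := h2
      rfl
    | B l' i' j' =>
      simp only [fst, snd, Prod.mk.injEq] at h1 h2
      omega
    | R k s d e =>
      simp only [fst, snd, Prod.mk.injEq] at h1 h2
      have := lev_even (k + 2)
      have := lev_even (k + 1)
      omega
    | C k s d e =>
      simp only [fst, snd, Prod.mk.injEq] at h1 h2
      have := lev_even k
      have := lev_even (k + 1)
      omega
  | B l i j =>
    cases r' with
    | A l' i' j' =>
      simp only [fst, snd, Prod.mk.injEq] at h1 h2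
      omega
    | B l' i' j' =>
      simp only [fst, snd, Prod.mk.injEq] at h1 h2
      obtain ⟨h3, -, rfl⟩ := h1
      obtain rfl : l = l' := by omega
      obtain ⟨-, -, rfl⟩ := h2
      rfl
    | R k s d e =>
      simp only [fst, snd, Prod.mk.injEq] at h1 h2
      have := lev_even (k + 2)
      have := lev_even (k + 1)
      omega
    | C k s d e =>
      simp only [fst, snd, Prod.mk.injEq] at h1 h2
      have := lev_even k
      have := lev_even (k + 1)
      omega
  | R k s d e =>
    cases r' with
    | A l' i' j' =>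
      simp only [fst, snd, Prod.mk.injEq] at h1 h2
      have := lev_even (k + 2)
      have := lev_even (k + 1)
      omega
    | B l' i' j' =>
      simp only [fst, snd, Prod.mk.injEq] at h1 h2
      have := lev_even (k + 2)
      have := lev_even (k + 1)
      omega
    | R k' s' d' e' =>
      simp only [fst, snd, Prod.mk.injEq] at h1 h2
      obtain ⟨h3, h4, rfl⟩ := h1
      obtain ⟨h5, h6, rfl⟩ := h2
      have h7 : Ld k s = Ld k' s' := Prod.ext h4 h6
      rcases lt_trichotomy k k' with hk | rfl | hk
      · exfalso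
        have hk2 : k' = k + 1 ∧ k % 3 = 2 := by
          unfold lev at h3 h5
          omega
        obtain ⟨rfl, hk3⟩ := hk2
        have c1 : cyc k = 2 := Fin.ext hk3
        have c2 : cyc (k + 1) = 0 := Fin.ext (by rw [cyc_val]; show (k + 1) % 3 = 0; omega)
        unfold Ld at h7
        rw [c1, c2] at h7
        exact T5' _ _ h7.symm
      · have := T5 _ _ _ h7
        rw [this]
      · exfalso
        have hk2 : k = k' + 1 ∧ k' % 3 = 2 := by
          unfold lev at h3 h5
          omega
        obtain ⟨rfl, hk3⟩ := hk2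
        have c1 : cyc k' = 2 := Fin.ext hk3
        have c2 : cyc (k' + 1) = 0 := Fin.ext (by rw [cyc_val]; show (k' + 1) % 3 = 0; omega)
        unfold Ld at h7
        rw [c1, c2] at h7
        exact T5' _ _ h7
    | C k' s' d' e' =>
      simp only [fst, snd, Prod.mk.injEq] at h1 h2
      have := lev_even (k + 2)
      have := lev_even k'
      omega
  | C k s d e =>
    cases r' with
    | A l' i' j' =>
      simp only [fst, snd, Prod.mk.injEq] at h1 h2
      have := lev_even k
      have := lev_even (k + 1)
      omega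
    | B l' i' j' =>
      simp only [fst, snd, Prod.mk.injEq] at h1 h2
      have := lev_even k
      have := lev_even (k + 1)
      omega
    | R k' s' d' e' =>
      simp only [fst, snd, Prod.mk.injEq] at h1 h2
      have := lev_even (k' + 2)
      have := lev_even k
      omega
    | C k' s' d' e' =>
      simp only [fst, snd, Prod.mk.injEq] at h1 h2
      obtain ⟨h3, rfl, h4⟩ := h1
      obtain ⟨h5, rfl, h6⟩ := h2
      have h7 : Ld (k + 2) s = Ld (k' + 2) s' := Prod.ext h6 h4
      rcases lt_trichotomy k k' with hk | rfl | hk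
      · exfalso
        have hk2 : k' = k + 1 ∧ k % 3 = 0 := by
          unfold lev at h3 h5
          omega
        obtain ⟨rfl, hk3⟩ := hk2
        have c1 : cyc (k + 2) = 2 := Fin.ext (by rw [cyc_val]; show (k + 2) % 3 = 2; omega)
        have c2 : cyc (k + 1 + 2) = 0 := Fin.ext (by rw [cyc_val]; show (k + 1 + 2) % 3 = 0; omega)
        unfold Ld at h7
        rw [c1, c2] at h7
        exact T5' _ _ h7.symm
      · have := T5 _ _ _ h7
        rw [this]
      · exfalso
        have hk2 : k = k' + 1 ∧ k' % 3 = 0 := by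
          unfold lev at h3 h5
          omega
        obtain ⟨rfl, hk3⟩ := hk2
        have c1 : cyc (k' + 2) = 2 := Fin.ext (by rw [cyc_val]; show (k' + 2) % 3 = 2; omega)
        have c2 : cyc (k' + 1 + 2) = 0 :=
          Fin.ext (by rw [cyc_val]; show (k' + 1 + 2) % 3 = 0; omega)
        unfold Ld at h7
        rw [c1, c2] at h7
        exact T5' _ _ h7

/-- The word `x_{2,7} x_{11,7}` of level zero. -/
def w0 : List Lt := [(0, 2, 7), (0, 11, 7)]

lemma two_letters {α : Type*} {x y a b : α} {u v : List α} (h : [x, y] = u ++ [a, b] ++ v) :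
    x = a ∧ y = b := by
  have hl := congrArg List.length h
  simp only [List.length_append, List.length_cons, List.length_nil] at hl
  have hu : u = [] := List.eq_nil_of_length_eq_zero (by omega)
  have hv : v = [] := List.eq_nil_of_length_eq_zero (by omega)
  subst hu hv
  simpa using h

lemma w0_irr (u : List Lt) (r : Rule) (v : List Lt) : w0 ≠ u ++ [fst r, snd r] ++ v := by
  intro h
  obtain ⟨h1, h2⟩ := two_letters h
  cases r with
  | A l i j =>
    simp only [fst, snd, Prod.mk.injEq] at h1 h2
    omega
  | B l i j =>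
    simp only [fst, snd, Prod.mk.injEq] at h1 h2
    omega
  | R k s d e =>
    simp only [fst, snd, Prod.mk.injEq] at h1 h2
    obtain ⟨h3, h4, -⟩ := h1
    obtain ⟨h5, h6, -⟩ := h2
    have hk : k = 0 := by
      unfold lev at h3 h5
      omega
    subst hk
    exact T11 s (Prod.ext h4.symm h6.symm)
  | C k s d e =>
    simp only [fst, snd, Prod.mk.injEq] at h1 h2
    omega

/-- The word `w0` is not in the two-sided ideal of the relations. -/
theorem w0_notMem : wd ℂ w0 ∉ K fst snd Tl :=
  wd_notMem_K (μ := mu) hT hinj hov w0_irr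

end TH288.Sys
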