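import Pool.Agent.TH288.Conf

/-!
Overlaps.
-/

namespace TH288.Sys

open TH288.Diamond

lemma memJ {r : Rule} {w : List Lt} (h : lt mu [fst r, snd r] w) : rel X r ∈ JM w := by
  refine Submodule.subset_span ⟨[], r, [], by simpa using h, ?_⟩
  simp [poly_eq]

lemma memJ_r {r : Rule} {c : Lt} {w : List Lt} (h : lt mu [fst r, snd r, c] w) :
    rel X r * FreeAlgebra.ι ℂ c ∈ JM w := by
  refine Submodule.subset_span ⟨[], r, [c], by simpa using h, ?_⟩
  simp [poly_eq, wd]

lemma memJ_l {r : Rule} {c : Lt} {w : List Lt} (h : lt mu [c, fst r, snd r] w) :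
    FreeAlgebra.ι ℂ c * rel X r ∈ JM w := by
  refine Submodule.subset_span ⟨[c], r, [], by simpa using h, ?_⟩
  simp [poly_eq, wd]

lemma memJ3 {r : Rule} {x y z : Lt} : rel X r ∈ JM [x, y, z] := memJ (lt_of_len (by simp))

lemma ov_red {r r' : Rule} (h : snd r = fst r') {w : List Lt}
    (hS : rel X r * FreeAlgebra.ι ℂ (snd r') - FreeAlgebra.ι ℂ (fst r) * rel X r' ∈ JM w) :
    Tl r * FreeAlgebra.ι ℂ (snd r') - FreeAlgebra.ι ℂ (fst r) * Tl r' ∈ JM w := by
  have e : Tl r * FreeAlgebra.ι ℂ (snd r') - FreeAlgebra.ι ℂ (fst r) * Tl r' =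
      -(rel X r * FreeAlgebra.ι ℂ (snd r') - FreeAlgebra.ι ℂ (fst r) * rel X r') := by
    simp only [Tl, wd, List.map_cons, List.map_nil, List.prod_cons, List.prod_nil, mul_one, h,
      sub_mul, mul_sub, mul_assoc]
    abel
  rw [e]
  exact Submodule.neg_mem _ hS

lemma pA_ne (l : ℕ) : pA l ≠ pA (l + 1) := by
  unfold pA
  rcases Nat.mod_two_eq_zero_or_one l with h | h
  · rw [if_pos h, if_neg (by omega)]; decide
  · rw [if_neg (by omega), if_pos (by omega)]; decide

lemma pB_ne (l : ℕ) : pB (l + 1) ≠ pB l := by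
  unfold pB
  rcases Nat.mod_two_eq_zero_or_one l with h | h
  · rw [if_pos h, if_neg (by omega)]; decide
  · rw [if_pos (by omega), if_neg (by omega)]; decide

lemma ovAB (l : ℕ) (i j : I) :
    relA X l i (pB l) * X l (pB l) j - X l i (pA l) * relB X l (pA l) j ∈
      JM [(l, i, pA l), (l + 1, pB l, pA l), (l, pB l, j)] := by
  have h0 := idB X l i j
  have h1 := sum_sub_mem (JM [(l, i, pA l), (l + 1, pB l, pA l), (l, pB l, j)])
    (fun p => relA X l i p * X l p j) (pB l) (fun p hp => by
      refine memJ_r (r := .A l i p) (c := (l, p, j)) (low3 ?_ ?_ (Or.inl ?_))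
      · have := cmpB l (pA l) j p hp
        simp only [fst, snd]
        omega
      · simp only [fst, snd, rc_row _ p (pB l)]
        exact le_refl _
      · have := cmpB l (pA l) j p hp
        simp only [fst, snd]
        omega)
  have h2 := sum_sub_mem (JM [(l, i, pA l), (l + 1, pB l, pA l), (l, pB l, j)])
    (fun q => X l i q * relB X l q j) (pA l) (fun q hq => by
      refine memJ_l (r := .B l q j) (c := (l, i, q)) (low3 ?_ ?_ (Or.inr ?_))
      · simp only [fst, snd, rr_col _ _ q (pA l)]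
        exact le_refl _
      · have := cmpA l i (pB l) q hq
        simp only [fst, snd]
        omega
      · have := cmpA l i (pB l) q hq
        simp only [fst, snd]
        omega)
  have e : relA X l i (pB l) * X l (pB l) j - X l i (pA l) * relB X l (pA l) j =
      ((∑ q, X l i q * relB X l q j) - X l i (pA l) * relB X l (pA l) j) -
      ((∑ p, relA X l i p * X l p j) - relA X l i (pB l) * X l (pB l) j) +
      ((∑ p, relA X l i p * X l p j) - ∑ q, X l i q * relB X l q j) := by abel
  rw [e, h0, add_zero]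
  exact Submodule.sub_mem _ h2 h1

lemma ovBA (l : ℕ) (i j : I) :
    relB X l i (pA l) * X (l + 1) j (pA l) - X (l + 1) (pB l) i * relA X l (pB l) j ∈
      JM [(l + 1, pB l, i), (l, pB l, pA l), (l + 1, j, pA l)] := by
  have h0 := idA X l i j
  have h1 := sum_sub_mem (JM [(l + 1, pB l, i), (l, pB l, pA l), (l + 1, j, pA l)])
    (fun q => relB X l i q * X (l + 1) j q) (pA l) (fun q hq => by
      refine memJ_r (r := .B l i q) (c := (l + 1, j, q)) (low3 ?_ ?_ (Or.inr ?_))
      · simp only [fst, snd, rr_col _ _ q (pA l)]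
        exact le_refl _
      · have := cmpA l (pB l) j q hq
        simp only [fst, snd]
        omega
      · have := cmpA l (pB l) j q hq
        simp only [fst, snd]
        omega)
  have h2 := sum_sub_mem (JM [(l + 1, pB l, i), (l, pB l, pA l), (l + 1, j, pA l)])
    (fun p => X (l + 1) p i * relA X l p j) (pB l) (fun p hp => by
      refine memJ_l (r := .A l p j) (c := (l + 1, p, i)) (low3 ?_ ?_ (Or.inl ?_))
      · have := cmpB l i (pA l) p hp
        simp only [fst, snd]
        omega
      · simp only [fst, snd, rc_row _ p (pB l)]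
        exact le_refl _
      · have := cmpB l i (pA l) p hp
        simp only [fst, snd]
        omega)
  have e : relB X l i (pA l) * X (l + 1) j (pA l) - X (l + 1) (pB l) i * relA X l (pB l) j =
      ((∑ p, X (l + 1) p i * relA X l p j) - X (l + 1) (pB l) i * relA X l (pB l) j) -
      ((∑ q, relB X l i q * X (l + 1) j q) - relB X l i (pA l) * X (l + 1) j (pA l)) +
      ((∑ q, relB X l i q * X (l + 1) j q) - ∑ p, X (l + 1) p i * relA X l p j) := by abel
  rw [e, h0, add_zero]
  exact Submodule.sub_mem _ h2 h1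

/-- lead subtraction with a coefficient -/
lemma lead_smul (c : ℂ) (hc : c = 1) (y : FreeAlgebra ℂ Lt) : c • y = y := by rw [hc, one_smul]

/-- family (c) -/
lemma ovRA (k : ℕ) (s d j : I) :
    relR X k s d (pA (lev (k + 1))) * X (lev (k + 1) + 1) j (pA (lev (k + 1))) -
      X (lev (k + 2)) (Ld k s).1 d * relA X (lev (k + 1)) (Ld k s).2 j ∈
      JM [(lev (k + 2), (Ld k s).1, d), (lev (k + 1), (Ld k s).2, pA (lev (k + 1))),
        (lev (k + 1) + 1, j, pA (lev (k + 1)))] := by
  set W : List Lt := [(lev (k + 2), (Ld k s).1, d), (lev (k + 1), (Ld k s).2, pA (lev (k + 1))),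
        (lev (k + 1) + 1, j, pA (lev (k + 1)))] with hW
  have h0 := idC X k s d j
  have h1 := sum_sub_mem (JM W)
    (fun e => relR X k s d e * X (lev (k + 1) + 1) j e) (pA (lev (k + 1))) (fun e he => by
      have hc := cmpA (lev (k + 1)) (Ld k s).2 j e he
      refine memJ_r (r := .R k s d e) (c := (lev (k + 1) + 1, j, e)) (low3 ?_ ?_ (Or.inr ?_))
      · simp only [fst, snd, rr_col _ _ e (pA (lev (k + 1)))]
        exact le_refl _
      · simp only [fst, snd]
        omega
      · simp only [fst, snd]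
        omega)
  have h2 := sum2_sub_mem (JM W)
    (fun p q => Th k p q s • (X (lev (k + 2)) p d * relA X (lev (k + 1)) q j))
    (Ld k s).1 (Ld k s).2 (fun p q hpq => by
      by_cases h : Th k p q s = 0
      · simp only [h, zero_smul]; exact Submodule.zero_mem _
      · refine Submodule.smul_mem _ _ ?_
        have hc := cmpR k s p q d (pA (lev (k + 1))) h hpq
        refine memJ_l (r := .A (lev (k + 1)) q j) (c := (lev (k + 2), p, d))
          (low3 ?_ ?_ (Or.inl ?_))
        · simp only [fst, snd]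
          omega
        · simp only [fst, snd, rc_row _ p (Ld k s).1, rc_row _ q (Ld k s).2]
          exact le_refl _
        · simp only [fst, snd]
          omega)
  have h3 : relC X k d j s ∈ JM W := memJ3 (r := .C k d j s)
  rw [lead_smul _ (Th_lead k s)] at h2
  have e : relR X k s d (pA (lev (k + 1))) * X (lev (k + 1) + 1) j (pA (lev (k + 1))) -
      X (lev (k + 2)) (Ld k s).1 d * relA X (lev (k + 1)) (Ld k s).2 j =
      ((∑ p, ∑ q, Th k p q s • (X (lev (k + 2)) p d * relA X (lev (k + 1)) q j)) -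
        X (lev (k + 2)) (Ld k s).1 d * relA X (lev (k + 1)) (Ld k s).2 j) -
      ((∑ e, relR X k s d e * X (lev (k + 1) + 1) j e) -
        relR X k s d (pA (lev (k + 1))) * X (lev (k + 1) + 1) j (pA (lev (k + 1)))) -
      relC X k d j s +
      ((∑ e, relR X k s d e * X (lev (k + 1) + 1) j e) -
      (∑ p, ∑ q, Th k p q s • (X (lev (k + 2)) p d * relA X (lev (k + 1)) q j)) +
      relC X k d j s) := by abel
  rw [e, h0, add_zero]
  exact Submodule.sub_mem _ (Submodule.sub_mem _ h2 h1) h3

/-- family (f) -/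
lemma ovCB (k : ℕ) (s e j : I) :
    relC X k s (pB (lev (k + 1))) e * X (lev (k + 1)) (pB (lev (k + 1))) j -
      X (lev k + 1) e (Ld (k + 2) s).2 * relB X (lev (k + 1)) (Ld (k + 2) s).1 j ∈
      JM [(lev k + 1, e, (Ld (k + 2) s).2),
        (lev (k + 1) + 1, pB (lev (k + 1)), (Ld (k + 2) s).1),
        (lev (k + 1), pB (lev (k + 1)), j)] := by
  set W : List Lt := [(lev k + 1, e, (Ld (k + 2) s).2),
        (lev (k + 1) + 1, pB (lev (k + 1)), (Ld (k + 2) s).1),
        (lev (k + 1), pB (lev (k + 1)), j)] with hW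
  have h0 := idF X k s e j
  have h1 := sum_sub_mem (JM W)
    (fun d => relC X k s d e * X (lev (k + 1)) d j) (pB (lev (k + 1))) (fun d hd => by
      have hc := cmpB (lev (k + 1)) (Ld (k + 2) s).1 j d hd
      refine memJ_r (r := .C k s d e) (c := (lev (k + 1), d, j)) (low3 ?_ ?_ (Or.inl ?_))
      · simp only [fst, snd]
        omega
      · simp only [fst, snd, rc_row _ d (pB (lev (k + 1)))]
        exact le_refl _
      · simp only [fst, snd]
        omega)
  have h2 := sum2_sub_mem (JM W)
    (fun p q => Th k s p q • (X (lev k + 1) e q * relB X (lev (k + 1)) p j))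
    (Ld (k + 2) s).1 (Ld (k + 2) s).2 (fun p q hpq => by
      by_cases h : Th k s p q = 0
      · simp only [h, zero_smul]; exact Submodule.zero_mem _
      · refine Submodule.smul_mem _ _ ?_
        have hc := cmpC k s p q (pB (lev (k + 1))) e h hpq
        refine memJ_l (r := .B (lev (k + 1)) p j) (c := (lev k + 1, e, q))
          (low3 ?_ ?_ (Or.inr ?_))
        · simp only [fst, snd, rr_col _ _ q (Ld (k + 2) s).2, rr_col _ _ p (Ld (k + 2) s).1]
          exact le_refl _
        · simp only [fst, snd]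
          omega
        · simp only [fst, snd]
          omega)
  have h3 : relR X k e s j ∈ JM W := memJ3 (r := .R k e s j)
  rw [lead_smul _ (Th_lead' k s)] at h2
  have e : relC X k s (pB (lev (k + 1))) e * X (lev (k + 1)) (pB (lev (k + 1))) j -
      X (lev k + 1) e (Ld (k + 2) s).2 * relB X (lev (k + 1)) (Ld (k + 2) s).1 j =
      ((∑ p, ∑ q, Th k s p q • (X (lev k + 1) e q * relB X (lev (k + 1)) p j)) -
        X (lev k + 1) e (Ld (k + 2) s).2 * relB X (lev (k + 1)) (Ld (k + 2) s).1 j) -
      ((∑ d, relC X k s d e * X (lev (k + 1)) d j) -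
        relC X k s (pB (lev (k + 1))) e * X (lev (k + 1)) (pB (lev (k + 1))) j) -
      relR X k e s j +
      ((∑ d, relC X k s d e * X (lev (k + 1)) d j) -
      (∑ p, ∑ q, Th k s p q • (X (lev k + 1) e q * relB X (lev (k + 1)) p j)) +
      relR X k e s j) := by abel
  rw [e, h0, add_zero]
  exact Submodule.sub_mem _ (Submodule.sub_mem _ h2 h1) h3

/-- family (d) -/
lemma ovAR (k : ℕ) (i s e : I) :
    relA X (lev k + 1) i (Ld (k + 1) s).1 * X (lev (k + 2)) (Ld (k + 1) s).2 e -
      X (lev k + 1) i (pA (lev k + 1)) * relR X (k + 1) s (pA (lev k + 1)) e ∈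
      JM [(lev k + 1, i, pA (lev k + 1)), (lev k + 2, (Ld (k + 1) s).1, pA (lev k + 1)),
        (lev (k + 2), (Ld (k + 1) s).2, e)] := by
  set W : List Lt := [(lev k + 1, i, pA (lev k + 1)),
    (lev k + 2, (Ld (k + 1) s).1, pA (lev k + 1)), (lev (k + 2), (Ld (k + 1) s).2, e)] with hW
  have hl : lev (k + 1 + 2) = lev k + 2 := lev3 k
  have hl2 : lev (k + 1 + 1) = lev (k + 2) := rfl
  have hl3 : lev k + 1 + 1 = lev k + 2 := rfl
  have h0 := idD X k i s e
  have h1 := sum_sub_mem (JM W)
    (fun d => X (lev k + 1) i d * relR X (k + 1) s d e) (pA (lev k + 1)) (fun d hd => by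
      have hc := cmpA (lev k + 1) i (Ld (k + 1) s).1 d hd
      rw [hl3] at hc
      refine memJ_l (r := .R (k + 1) s d e) (c := (lev k + 1, i, d)) (low3 ?_ ?_ (Or.inr ?_))
      · simp only [fst, snd, hl, hl2, rr_col _ _ d (pA (lev k + 1))]
        exact le_refl _
      · simp only [fst, snd, hl, hl2]
        omega
      · simp only [fst, snd, hl, hl2]
        omega)
  have h2 := sum2_sub_mem (JM W)
    (fun p q => Th (k + 1) p q s • (relA X (lev k + 1) i p * X (lev (k + 2)) q e))
    (Ld (k + 1) s).1 (Ld (k + 1) s).2 (fun p q hpq => by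
      by_cases h : Th (k + 1) p q s = 0
      · simp only [h, zero_smul]; exact Submodule.zero_mem _
      · refine Submodule.smul_mem _ _ ?_
        have hc := cmpR (k + 1) s p q (pA (lev k + 1)) e h hpq
        rw [hl, hl2] at hc
        refine memJ_r (r := .A (lev k + 1) i p) (c := (lev (k + 2), q, e))
          (low3 ?_ ?_ (Or.inl ?_))
        · simp only [fst, snd, hl3]
          omega
        · simp only [fst, snd, hl3, rc_row _ p (Ld (k + 1) s).1, rc_row _ q (Ld (k + 1) s).2]
          exact le_refl _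
        · simp only [fst, snd, hl3]
          omega)
  have h3 : relC X k e s i ∈ JM W := memJ3 (r := .C k e s i)
  rw [lead_smul _ (Th_lead (k + 1) s)] at h2
  have e : relA X (lev k + 1) i (Ld (k + 1) s).1 * X (lev (k + 2)) (Ld (k + 1) s).2 e -
      X (lev k + 1) i (pA (lev k + 1)) * relR X (k + 1) s (pA (lev k + 1)) e =
      ((∑ d, X (lev k + 1) i d * relR X (k + 1) s d e) -
        X (lev k + 1) i (pA (lev k + 1)) * relR X (k + 1) s (pA (lev k + 1)) e) -
      ((∑ p, ∑ q, Th (k + 1) p q s • (relA X (lev k + 1) i p * X (lev (k + 2)) q e)) -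
        relA X (lev k + 1) i (Ld (k + 1) s).1 * X (lev (k + 2)) (Ld (k + 1) s).2 e) +
      relC X k e s i -
      ((∑ d, X (lev k + 1) i d * relR X (k + 1) s d e) -
      (∑ p, ∑ q, Th (k + 1) p q s • (relA X (lev k + 1) i p * X (lev (k + 2)) q e)) +
      relC X k e s i) := by abel
  rw [e, h0, sub_zero]
  exact Submodule.add_mem _ (Submodule.sub_mem _ h1 h2) h3

/-- family (e) -/
lemma ovBC (k : ℕ) (j s d : I) :
    relB X (lev k + 1) j (Ld (k + 2) s).2 * X (lev (k + 1) + 1) d (Ld (k + 2) s).1 -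
      X (lev k + 2) (pB (lev k + 1)) j * relC X k s d (pB (lev k + 1)) ∈
      JM [(lev k + 2, pB (lev k + 1), j), (lev k + 1, pB (lev k + 1), (Ld (k + 2) s).2),
        (lev (k + 1) + 1, d, (Ld (k + 2) s).1)] := by
  set W : List Lt := [(lev k + 2, pB (lev k + 1), j),
    (lev k + 1, pB (lev k + 1), (Ld (k + 2) s).2), (lev (k + 1) + 1, d, (Ld (k + 2) s).1)] with hW
  have hl3 : lev k + 1 + 1 = lev k + 2 := rfl
  have h0 := idE X k j s d
  have h1 := sum_sub_mem (JM W)
    (fun e => X (lev k + 2) e j * relC X k s d e) (pB (lev k + 1)) (fun e he => by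
      have hc := cmpB (lev k + 1) j (Ld (k + 2) s).2 e he
      rw [hl3] at hc
      refine memJ_l (r := .C k s d e) (c := (lev k + 2, e, j)) (low3 ?_ ?_ (Or.inl ?_))
      · simp only [fst, snd]
        omega
      · simp only [fst, snd, rc_row _ e (pB (lev k + 1))]
        exact le_refl _
      · simp only [fst, snd]
        omega)
  have h2 := sum2_sub_mem (JM W)
    (fun p q => Th k s p q • (relB X (lev k + 1) j q * X (lev (k + 1) + 1) d p))
    (Ld (k + 2) s).1 (Ld (k + 2) s).2 (fun p q hpq => by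
      by_cases h : Th k s p q = 0
      · simp only [h, zero_smul]; exact Submodule.zero_mem _
      · refine Submodule.smul_mem _ _ ?_
        have hc := cmpC k s p q d (pB (lev k + 1)) h hpq
        refine memJ_r (r := .B (lev k + 1) j q) (c := (lev (k + 1) + 1, d, p))
          (low3 ?_ ?_ (Or.inr ?_))
        · simp only [fst, snd, hl3, rr_col _ _ p (Ld (k + 2) s).1, rr_col _ _ q (Ld (k + 2) s).2]
          exact le_refl _
        · simp only [fst, snd, hl3]
          omega
        · simp only [fst, snd, hl3]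
          omega)
  have h3 : relR X (k + 1) d j s ∈ JM W := memJ3 (r := .R (k + 1) d j s)
  rw [lead_smul _ (Th_lead' k s)] at h2
  have e : relB X (lev k + 1) j (Ld (k + 2) s).2 * X (lev (k + 1) + 1) d (Ld (k + 2) s).1 -
      X (lev k + 2) (pB (lev k + 1)) j * relC X k s d (pB (lev k + 1)) =
      ((∑ e, X (lev k + 2) e j * relC X k s d e) -
        X (lev k + 2) (pB (lev k + 1)) j * relC X k s d (pB (lev k + 1))) -
      ((∑ p, ∑ q, Th k s p q • (relB X (lev k + 1) j q * X (lev (k + 1) + 1) d p)) -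
        relB X (lev k + 1) j (Ld (k + 2) s).2 * X (lev (k + 1) + 1) d (Ld (k + 2) s).1) +
      relR X (k + 1) d j s -
      ((∑ e, X (lev k + 2) e j * relC X k s d e) -
      (∑ p, ∑ q, Th k s p q • (relB X (lev k + 1) j q * X (lev (k + 1) + 1) d p)) +
      relR X (k + 1) d j s) := by abel
  rw [e, h0, sub_zero]
  exact Submodule.add_mem _ (Submodule.sub_mem _ h1 h2) h3

lemma Ld0 (k : ℕ) : (Ld k 0).2 = 7 := (T6 (cyc k)).1
lemma Ld7a (k : ℕ) : (Ld (k + 1) 7).1 = 0 := by
  unfold Ld; rw [cyc_succ]; exact (T6 (cyc k)).2.1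
lemma Ld7b (k : ℕ) : (Ld (k + 1) 7).2 = (Ld k 0).1 := by
  unfold Ld; rw [cyc_succ]; exact (T6 (cyc k)).2.2
lemma Ldlt (k : ℕ) (q : I) (hq : q ≠ 7) : ((Ld k 7).1.val < (Ld k q).1.val ∨
    ((Ld k 7).1.val = (Ld k q).1.val ∧ (Ld k 7).2.val < (Ld k q).2.val)) := T7 _ q hq

/-- family (g) -/
lemma ovRR (k : ℕ) (g d e : I) :
    relR X (k + 1) 7 g d * X (lev (k + 1)) 7 e - X (lev k + 2) 0 g * relR X k 0 d e ∈
      JM [(lev k + 2, 0, g), (lev (k + 2), (Ld k 0).1, d), (lev (k + 1), 7, e)] := by
  set W : List Lt := [(lev k + 2, 0, g), (lev (k + 2), (Ld k 0).1, d), (lev (k + 1), 7, e)] with hW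
  have hl : lev (k + 1 + 2) = lev k + 2 := lev3 k
  have hl2 : lev (k + 1 + 1) = lev (k + 2) := rfl
  have h0 := idG X k g d e
  have ev2 : (lev k + 2) % 2 = 0 := by have := lev_even k; omega
  have v0 : ((0 : I)).val = 0 := rfl
  have v7 : ((7 : I)).val = 7 := rfl
  have h1 := sum_sub_mem (JM W)
    (fun s => X (lev k + 2) s g * relR X k s d e) 0 (fun s hs => by
      have hs' : s.val ≠ 0 := fun h => hs (Fin.ext h)
      refine memJ_l (r := .R k s d e) (c := (lev k + 2, s, g)) (low3 ?_ ?_ (Or.inl ?_))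
      · simp only [fst, snd]
        rw [rr_even ev2, rr_even ev2, rr_even (lev_even _), rr_even (lev_even _),
          rr_even (lev_even _), rr_even (lev_even _), v0]
        omega
      · simp only [fst, snd, rc_row _ s 0, rc_row _ (Ld k s).1 (Ld k 0).1, rc_row _ (Ld k s).2 7]
        exact le_refl _
      · simp only [fst, snd]
        rw [rr_even ev2, rr_even ev2, rr_even (lev_even _), rr_even (lev_even _),
          rr_even (lev_even _), rr_even (lev_even _), v0]
        omega)
  have h2 := sum_sub_mem (JM W)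
    (fun q => relR X (k + 1) q g d * X (lev (k + 1)) q e) 7 (fun q hq => by
      have hc := Ldlt (k + 1) q hq
      rw [Ld7a, Ld7b] at hc
      refine memJ_r (r := .R (k + 1) q g d) (c := (lev (k + 1), q, e)) (low3 ?_ ?_ (Or.inl ?_))
      · simp only [fst, snd, hl, hl2]
        rw [rr_even ev2, rr_even ev2, rr_even (lev_even _), rr_even (lev_even _),
          rr_even (lev_even _), rr_even (lev_even _), v0]
        omega
      · simp only [fst, snd, hl, hl2, rc_row _ q 7, rc_row _ (Ld (k + 1) q).1 0,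
          rc_row _ (Ld (k + 1) q).2 (Ld k 0).1]
        exact le_refl _
      · simp only [fst, snd, hl, hl2]
        rw [rr_even ev2, rr_even ev2, rr_even (lev_even _), rr_even (lev_even _),
          rr_even (lev_even _), rr_even (lev_even _), v0]
        omega)
  have h3 : (∑ f, Th k d e f • relB X (lev k + 1) g f) ∈ JM W :=
    Submodule.sum_mem _ fun f _ => Submodule.smul_mem _ _ (memJ3 (r := .B (lev k + 1) g f))
  have h4 : (∑ f, Th (k + 1) g d f • relB X (lev (k + 1)) f e) ∈ JM W :=
    Submodule.sum_mem _ fun f _ => Submodule.smul_mem _ _ (memJ3 (r := .B (lev (k + 1)) f e))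
  have e : relR X (k + 1) 7 g d * X (lev (k + 1)) 7 e - X (lev k + 2) 0 g * relR X k 0 d e =
      ((∑ s, X (lev k + 2) s g * relR X k s d e) - X (lev k + 2) 0 g * relR X k 0 d e) -
      ((∑ q, relR X (k + 1) q g d * X (lev (k + 1)) q e) -
        relR X (k + 1) 7 g d * X (lev (k + 1)) 7 e) +
      (∑ f, Th k d e f • relB X (lev k + 1) g f) -
      (∑ f, Th (k + 1) g d f • relB X (lev (k + 1)) f e) -
      ((∑ s, X (lev k + 2) s g * relR X k s d e) -
      (∑ q, relR X (k + 1) q g d * X (lev (k + 1)) q e)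
      + (∑ f, Th k d e f • relB X (lev k + 1) g f)
      - (∑ f, Th (k + 1) g d f • relB X (lev (k + 1)) f e)) := by abel
  rw [e, h0, sub_zero]
  exact Submodule.sub_mem _ (Submodule.add_mem _ (Submodule.sub_mem _ h1 h2) h3) h4

/-- family (h) -/
lemma ovCC (k : ℕ) (d e g : I) :
    relC X k 0 d e * X (lev (k + 2) + 1) g 0 - X (lev k + 1) e 7 * relC X (k + 1) 7 g d ∈
      JM [(lev k + 1, e, 7), (lev (k + 1) + 1, d, (Ld (k + 2) 0).1), (lev (k + 2) + 1, g, 0)] := by
  set W : List Lt := [(lev k + 1, e, 7), (lev (k + 1) + 1, d, (Ld (k + 2) 0).1),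
    (lev (k + 2) + 1, g, 0)] with hW
  have hl2 : lev (k + 1 + 1) = lev (k + 2) := rfl
  have h0 := idH X k d e g
  have v0 : ((0 : I)).val = 0 := rfl
  have v7 : ((7 : I)).val = 7 := rfl
  have h1 := sum_sub_mem (JM W)
    (fun s => relC X k s d e * X (lev (k + 2) + 1) g s) 0 (fun s hs => by
      have hs' : s.val ≠ 0 := fun h => hs (Fin.ext h)
      refine memJ_r (r := .C k s d e) (c := (lev (k + 2) + 1, g, s)) (low3 ?_ ?_ (Or.inr ?_))
      · simp only [fst, snd, rr_col _ _ s 0, rr_col _ _ (Ld (k + 2) s).2 7,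
          rr_col _ _ (Ld (k + 2) s).1 (Ld (k + 2) 0).1]
        exact le_refl _
      · simp only [fst, snd]
        rw [rc_odd (lev_odd _), rc_odd (lev_odd _), rc_odd (lev_odd _), rc_odd (lev_odd _),
          rc_odd (lev_odd _), rc_odd (lev_odd _), v0]
        omega
      · simp only [fst, snd]
        rw [rc_odd (lev_odd _), rc_odd (lev_odd _), rc_odd (lev_odd _), rc_odd (lev_odd _),
          rc_odd (lev_odd _), rc_odd (lev_odd _), v0]
        omega)
  have h2 := sum_sub_mem (JM W)
    (fun q => X (lev k + 1) e q * relC X (k + 1) q g d) 7 (fun q hq => by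
      have hc := Ldlt (k + 2 + 1) q hq
      rw [Ld7a, Ld7b] at hc
      have e3 : k + 1 + 2 = k + 2 + 1 := rfl
      refine memJ_l (r := .C (k + 1) q g d) (c := (lev k + 1, e, q)) (low3 ?_ ?_ (Or.inr ?_))
      · simp only [fst, snd, hl2, e3, rr_col _ _ q 7, rr_col _ _ (Ld (k + 2 + 1) q).1 0,
          rr_col _ _ (Ld (k + 2 + 1) q).2 (Ld (k + 2) 0).1]
        exact le_refl _
      · simp only [fst, snd, hl2, e3]
        rw [rc_odd (lev_odd _), rc_odd (lev_odd _), rc_odd (lev_odd _), rc_odd (lev_odd _),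
          rc_odd (lev_odd _), rc_odd (lev_odd _), v0]
        omega
      · simp only [fst, snd, hl2, e3]
        rw [rc_odd (lev_odd _), rc_odd (lev_odd _), rc_odd (lev_odd _), rc_odd (lev_odd _),
          rc_odd (lev_odd _), rc_odd (lev_odd _), v0]
        omega)
  have h3 : (∑ f, Th k f d e • relA X (lev (k + 2)) f g) ∈ JM W :=
    Submodule.sum_mem _ fun f _ => Submodule.smul_mem _ _ (memJ3 (r := .A (lev (k + 2)) f g))
  have h4 : (∑ f, Th (k + 1) f g d • relA X (lev k + 1) e f) ∈ JM W :=
    Submodule.sum_mem _ fun f _ => Submodule.smul_mem _ _ (memJ3 (r := .A (lev k + 1) e f))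
  have e : relC X k 0 d e * X (lev (k + 2) + 1) g 0 - X (lev k + 1) e 7 * relC X (k + 1) 7 g d =
      ((∑ q, X (lev k + 1) e q * relC X (k + 1) q g d) -
        X (lev k + 1) e 7 * relC X (k + 1) 7 g d) -
      ((∑ s, relC X k s d e * X (lev (k + 2) + 1) g s) -
        relC X k 0 d e * X (lev (k + 2) + 1) g 0) -
      (∑ f, Th k f d e • relA X (lev (k + 2)) f g) +
      (∑ f, Th (k + 1) f g d • relA X (lev k + 1) e f) +
      ((∑ s, relC X k s d e * X (lev (k + 2) + 1) g s) -
      (∑ q, X (lev k + 1) e q * relC X (k + 1) q g d)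
      + (∑ f, Th k f d e • relA X (lev (k + 2)) f g)
      - (∑ f, Th (k + 1) f g d • relA X (lev k + 1) e f)) := by abel
  rw [e, h0, add_zero]
  exact Submodule.add_mem _ (Submodule.sub_mem _ (Submodule.sub_mem _ h2 h1) h3) h4

end TH288.Sys
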