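import Pool.Agent.TH288.Diamond

/-!
The rewriting system: letters, rules, tables.
-/

namespace TH288.Sys

open TH288.Diamond

/-- Index type. -/
abbrev I : Type := Fin 12

/-- The three tables of leading pairs. -/
def tab0 : I → I × I :=
  ![(4, 7), (0, 7), (1, 7), (1, 8), (1, 9), (1, 10), (1, 11), (0, 5), (0, 8), (0, 9), (0, 10),
    (0, 11)]

/-- The three tables of leading pairs. -/
def tab1 : I → I × I :=
  ![(6, 7), (1, 7), (2, 7), (3, 7), (1, 8), (1, 9), (1, 10), (0, 4), (0, 8), (0, 9), (0, 10),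
    (0, 11)]

/-- The three tables of leading pairs. -/
def tab2 : I → I × I :=
  ![(5, 7), (2, 7), (2, 8), (2, 9), (2, 10), (2, 11), (3, 7), (0, 6), (3, 8), (3, 9), (3, 10),
    (3, 11)]

/-- The support of the trilinear form: 33 triples. -/
def ph (p q s : I) : Bool :=
  (tab0 s == (p, q)) || (tab2 p == (q, s)) || (tab1 q == (s, p))

/-- Leading pairs. -/
def tb (t : Fin 3) : I → I × I :=
  match t with
  | 0 => tab0
  | 1 => tab1
  | 2 => tab2

/-- Rotations of the support. -/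
def pht (t : Fin 3) (u v w : I) : Bool :=
  match t with
  | 0 => ph u v w
  | 1 => ph v w u
  | 2 => ph w u v

set_option maxRecDepth 100000 in
lemma T1 : ∀ t : Fin 3, ∀ s : I, pht t (tb t s).1 (tb t s).2 s = true := by decide +kernel

set_option maxRecDepth 100000 in
lemma T2 : ∀ t : Fin 3, ∀ s p q : I, pht t p q s = true → (p, q) ≠ tb t s →
    ((tb t s).1.val < p.val ∨ ((tb t s).1.val = p.val ∧ (tb t s).2.val < q.val)) := by
  decide +kernel

lemma T3 : ∀ t t' : Fin 3, ∀ s s' : I, (tb t s).2 = (tb t' s').1 →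
    t = t' + 1 ∧ s = 7 ∧ s' = 0 := by decide +kernel

lemma T4 : ∀ t : Fin 3, ∀ s : I, (tb t s).1 ≠ 7 ∧ (tb t s).2 ≠ 0 := by decide +kernel

lemma T5 : ∀ t : Fin 3, ∀ s s' : I, tb t s = tb t s' → s = s' := by decide +kernel

lemma T5' : ∀ s s' : I, tb 0 s ≠ tb 2 s' := by decide +kernel

lemma T6 : ∀ t : Fin 3, (tb t 0).2 = 7 ∧ (tb (t + 1) 7).1 = 0 ∧ (tb (t + 1) 7).2 = (tb t 0).1 := by
  decide +kernel

lemma T7 : ∀ t : Fin 3, ∀ q : I, q ≠ 7 → ((tb t 7).1.val < (tb t q).1.val ∨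
    ((tb t 7).1.val = (tb t q).1.val ∧ (tb t 7).2.val < (tb t q).2.val)) := by
  decide +kernel

lemma T8 : ∀ f f' : I, pht 0 (tb 0 f).1 (tb 0 f).2 f' = true ↔ f' = f := by decide +kernel

lemma T9 : ∀ f : I, pht 0 f 7 7 = false := by decide +kernel

lemma T10 : ∀ p q : I, pht 0 5 p q = true ↔ (p = 2 ∧ q = 11) := by decide +kernel

lemma T11 : ∀ s, tb 0 s ≠ (2, 11) := by decide +kernel

lemma T12 : ∀ f f' : I, pht 0 f' (tb 2 f).1 (tb 2 f).2 = true ↔ f' = f := by decide +kernel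

lemma Trot : ∀ t : Fin 3, ∀ u v w : I, pht (t + 1) w u v = pht t u v w := by
  intro t u v w
  fin_cases t <;> rfl


/-- Residue mod 3. -/
def cyc (k : ℕ) : Fin 3 := ⟨k % 3, Nat.mod_lt _ (by norm_num)⟩

lemma cyc_succ (k : ℕ) : cyc (k + 1) = cyc k + 1 := by
  apply Fin.ext
  simp only [cyc, Fin.val_add]
  have : ((1 : Fin 3) : ℕ) = 1 := rfl
  omega

lemma cyc_add3 (k : ℕ) : cyc (k + 3) = cyc k := by
  apply Fin.ext
  simp only [cyc]
  omega

/-- The tensor of the `k`-th vertex. -/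
noncomputable def Th (k : ℕ) (u v w : I) : ℂ := if pht (cyc k) u v w = true then 1 else 0

lemma Th_rot (k : ℕ) (u v w : I) : Th (k + 1) w u v = Th k u v w := by
  unfold Th
  rw [cyc_succ, Trot]

lemma Th_rot' (k : ℕ) (u v w : I) : Th (k + 2) u v w = Th k w u v := by
  rw [← Th_rot (k + 2) u v w]
  unfold Th
  rw [show k + 2 + 1 = k + 3 from rfl, cyc_add3]

/-- Level of the `k`-th strand. -/
def lev (k : ℕ) : ℕ := 2 * (k / 3)

lemma lev3 (k : ℕ) : lev (k + 3) = lev k + 2 := by unfold lev; omega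

/-- Leading pair of the `k`-th vertex. -/
def Ld (k : ℕ) (s : I) : I × I := tb (cyc k) s

/-- Pivots. -/
def pA (l : ℕ) : I := if l % 2 = 0 then 0 else 7
/-- Pivots. -/
def pB (l : ℕ) : I := if l % 2 = 0 then 7 else 0

/-- Letters. -/
abbrev Lt : Type := ℕ × I × I

/-- The rules. -/
inductive Rule : Type
  | A (l : ℕ) (i j : I)
  | B (l : ℕ) (i j : I)
  | R (k : ℕ) (s d e : I)
  | C (k : ℕ) (s d e : I)

/-- First letter of the leading word. -/
def fst : Rule → Lt
  | .A l i _ => (l, i, pA l)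
  | .B l i _ => (l + 1, pB l, i)
  | .R k s d _ => (lev (k + 2), (Ld k s).1, d)
  | .C k s _ e => (lev k + 1, e, (Ld (k + 2) s).2)

/-- Second letter of the leading word. -/
def snd : Rule → Lt
  | .A l _ j => (l + 1, j, pA l)
  | .B l _ j => (l, pB l, j)
  | .R k s _ e => (lev (k + 1), (Ld k s).2, e)
  | .C k s d _ => (lev (k + 1) + 1, d, (Ld (k + 2) s).1)

section rel
variable {A : Type*} [Ring A] [Algebra ℂ A] (x : ℕ → I → I → A)

/-- The relations, in an arbitrary algebra. -/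
noncomputable def relA (l : ℕ) (i j : I) : A :=
  (∑ p, x l i p * x (l + 1) j p) - if i = j then 1 else 0

/-- The relations, in an arbitrary algebra. -/
noncomputable def relB (l : ℕ) (i j : I) : A :=
  (∑ p, x (l + 1) p i * x l p j) - if i = j then 1 else 0

/-- The relations, in an arbitrary algebra. -/
noncomputable def relR (k : ℕ) (s d e : I) : A :=
  (∑ p, ∑ q, Th k p q s • (x (lev (k + 2)) p d * x (lev (k + 1)) q e)) -
    ∑ f, Th k d e f • x (lev k + 1) s f

/-- The relations, in an arbitrary algebra. -/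
noncomputable def relC (k : ℕ) (s d e : I) : A :=
  (∑ p, ∑ q, Th k s p q • (x (lev k + 1) e q * x (lev (k + 1) + 1) d p)) -
    ∑ f, Th k f d e • x (lev (k + 2)) f s

/-- The relations, in an arbitrary algebra. -/
noncomputable def rel : Rule → A
  | .A l i j => relA x l i j
  | .B l i j => relB x l i j
  | .R k s d e => relR x k s d e
  | .C k s d e => relC x k s d e

omit [Algebra ℂ A] in
lemma idA (l : ℕ) (i j : I) :
    (∑ q, relB x l i q * x (l + 1) j q) - ∑ p, x (l + 1) p i * relA x l p j = 0 := by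
  simp only [relA, relB, sub_mul, mul_sub, Finset.sum_sub_distrib, Finset.sum_mul,
    Finset.mul_sum, ite_mul, mul_ite, one_mul, mul_one, zero_mul, mul_zero, Finset.sum_ite_eq,
    Finset.sum_ite_eq', Finset.mem_univ, if_true, mul_assoc]
  rw [Finset.sum_comm]
  abel

omit [Algebra ℂ A] in
lemma idB (l : ℕ) (i j : I) :
    (∑ p, relA x l i p * x l p j) - ∑ q, x l i q * relB x l q j = 0 := by
  simp only [relA, relB, sub_mul, mul_sub, Finset.sum_sub_distrib, Finset.sum_mul,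
    Finset.mul_sum, ite_mul, mul_ite, one_mul, mul_one, zero_mul, mul_zero, Finset.sum_ite_eq,
    Finset.sum_ite_eq', Finset.mem_univ, if_true, mul_assoc]
  rw [Finset.sum_comm]
  abel

omit [Algebra ℂ A] in
lemma sum3a (g : I → I → I → A) : ∑ e, ∑ p, ∑ q, g e p q = ∑ p, ∑ q, ∑ e, g e p q := by
  rw [Finset.sum_comm]
  exact Finset.sum_congr rfl fun p _ => Finset.sum_comm

omit [Algebra ℂ A] in
lemma sum3b (g : I → I → I → A) : ∑ s, ∑ p, ∑ q, g s p q = ∑ q, ∑ s, ∑ p, g s p q := by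
  rw [sum3a, sum3a]

omit [Algebra ℂ A] in
lemma sumite (g : I → I → A) (j : I) :
    (∑ p, ∑ q, if p = j then g p q else 0) = ∑ q, g j q := by
  rw [Finset.sum_comm]
  exact Finset.sum_congr rfl fun q _ => by simp

omit [Algebra ℂ A] in
lemma sumite' (g : I → I → A) (j : I) :
    (∑ p, ∑ q, if j = p then g p q else 0) = ∑ q, g j q := by
  rw [Finset.sum_comm]
  exact Finset.sum_congr rfl fun q _ => by simp

omit [Algebra ℂ A] in
lemma sumite'' (g : I → I → A) (j : I) :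
    (∑ p, ∑ q, if j = q then g p q else 0) = ∑ p, g p j := by
  exact Finset.sum_congr rfl fun q _ => by simp

/-- family (c): `R_k` followed by `A`. -/
lemma idC (k : ℕ) (s d j : I) :
    (∑ e, relR x k s d e * x (lev (k + 1) + 1) j e) -
      (∑ p, ∑ q, Th k p q s • (x (lev (k + 2)) p d * relA x (lev (k + 1)) q j)) +
      relC x k d j s = 0 := by
  simp only [relA, relR, relC, sub_mul, mul_sub, Finset.sum_sub_distrib, Finset.sum_mul,
    Finset.mul_sum, Finset.smul_sum, smul_sub, smul_mul_assoc, mul_assoc,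
    mul_ite, mul_one, mul_zero, smul_ite, smul_zero, Finset.sum_ite_eq',
    Finset.mem_univ, if_true]
  rw [sum3a]
  abel

/-- family (f): `C_k` followed by `B`. -/
lemma idF (k : ℕ) (s e j : I) :
    (∑ d, relC x k s d e * x (lev (k + 1)) d j) -
      (∑ p, ∑ q, Th k s p q • (x (lev k + 1) e q * relB x (lev (k + 1)) p j)) +
      relR x k e s j = 0 := by
  simp only [relB, relR, relC, sub_mul, mul_sub, Finset.sum_sub_distrib, Finset.sum_mul,
    Finset.mul_sum, Finset.smul_sum, smul_sub, smul_mul_assoc, mul_assoc,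
    mul_ite, mul_one, mul_zero, smul_ite, smul_zero]
  rw [sum3a, sumite]
  rw [Finset.sum_comm (f := fun x_1 x_2 =>
    Th k x_2 x_1 e • (x (lev (k + 2)) x_2 s * x (lev (k + 1)) x_1 j))]
  abel

/-- family (d): `A` followed by `R_{k+1}`. -/
lemma idD (k : ℕ) (i s e : I) :
    (∑ d, x (lev k + 1) i d * relR x (k + 1) s d e) -
      (∑ p, ∑ q, Th (k + 1) p q s • (relA x (lev k + 1) i p * x (lev (k + 2)) q e)) +
      relC x k e s i = 0 := by
  have hl : lev (k + 1 + 2) = lev k + 2 := lev3 k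
  have hl2 : lev (k + 1 + 1) = lev (k + 2) := rfl
  have hl3 : lev k + 1 + 1 = lev k + 2 := rfl
  simp only [relA, relR, relC, sub_mul, mul_sub, Finset.sum_sub_distrib, Finset.sum_mul,
    Finset.mul_sum, Finset.smul_sum, smul_sub, mul_smul_comm, mul_assoc,
    ite_mul, one_mul, zero_mul, smul_ite, smul_zero, hl, hl2, hl3]
  rw [sum3a, sumite']
  have e1 : ∀ f, Th k f s i = Th (k + 1) i f s := fun f => (Th_rot k f s i).symm
  have e2 : ∀ p q, Th k e p q = Th (k + 1) q e p := fun p q => (Th_rot k e p q).symm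
  simp only [e1, e2]
  rw [Finset.sum_comm (f := fun p q =>
    Th (k + 1) q e p • (x (lev k + 1) i q * x (lev (k + 1) + 1) s p))]
  abel

/-- family (e): `B` followed by `C_k`. -/
lemma idE (k : ℕ) (j s d : I) :
    (∑ e, x (lev k + 2) e j * relC x k s d e) -
      (∑ p, ∑ q, Th k s p q • (relB x (lev k + 1) j q * x (lev (k + 1) + 1) d p)) +
      relR x (k + 1) d j s = 0 := by
  have hl : lev (k + 1 + 2) = lev k + 2 := lev3 k
  have hl2 : lev (k + 1 + 1) = lev (k + 2) := rfl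
  have hl3 : lev k + 1 + 1 = lev k + 2 := rfl
  simp only [relB, relR, relC, sub_mul, mul_sub, Finset.sum_sub_distrib, Finset.sum_mul,
    Finset.mul_sum, Finset.smul_sum, smul_sub, mul_smul_comm, mul_assoc,
    ite_mul, one_mul, zero_mul, smul_ite, smul_zero, hl, hl2, hl3]
  rw [sum3a, sumite'']
  simp only [Th_rot]
  abel

/-- family (g): `R_{k+1}` followed by `R_k`. -/
lemma idG (k : ℕ) (g d e : I) :
    (∑ s, x (lev k + 2) s g * relR x k s d e) - (∑ q, relR x (k + 1) q g d * x (lev (k + 1)) q e)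
      + (∑ f, Th k d e f • relB x (lev k + 1) g f)
      - (∑ f, Th (k + 1) g d f • relB x (lev (k + 1)) f e) = 0 := by
  have hl : lev (k + 1 + 2) = lev k + 2 := lev3 k
  have hl2 : lev (k + 1 + 1) = lev (k + 2) := rfl
  have hl3 : lev k + 1 + 1 = lev k + 2 := rfl
  simp only [relB, relR, sub_mul, mul_sub, Finset.sum_sub_distrib, Finset.sum_mul,
    Finset.mul_sum, Finset.smul_sum, smul_sub, mul_smul_comm, smul_mul_assoc, mul_assoc,
    smul_ite, smul_zero, hl, hl2, hl3, Finset.sum_ite_eq, Finset.sum_ite_eq', Finset.mem_univ,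
    if_true]
  have e1 : ∑ x_1, ∑ x_2, ∑ x_3, Th k x_2 x_3 x_1 •
      (x (lev k + 2) x_1 g * (x (lev (k + 2)) x_2 d * x (lev (k + 1)) x_3 e)) =
      ∑ x_1, ∑ x_2, ∑ x_3, Th (k + 1) x_2 x_3 x_1 •
      (x (lev k + 2) x_2 g * (x (lev (k + 2)) x_3 d * x (lev (k + 1)) x_1 e)) := by
    rw [sum3b]
    refine Finset.sum_congr rfl fun a _ => Finset.sum_congr rfl fun b _ =>
      Finset.sum_congr rfl fun c _ => ?_
    rw [Th_rot]
  have e2 : ∑ x_1, ∑ x_2, Th k d e x_2 • (x (lev k + 2) x_1 g * x (lev k + 1) x_1 x_2) =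
      ∑ x_1, ∑ x_2, Th k d e x_1 • (x (lev k + 2) x_2 g * x (lev k + 1) x_2 x_1) :=
    Finset.sum_comm
  have e3 : ∑ x_1, ∑ x_2, Th (k + 1) g d x_2 •
      (x (lev (k + 1) + 1) x_1 x_2 * x (lev (k + 1)) x_1 e) =
      ∑ x_1, ∑ x_2, Th (k + 1) g d x_1 •
      (x (lev (k + 1) + 1) x_2 x_1 * x (lev (k + 1)) x_2 e) :=
    Finset.sum_comm
  have e4 : Th (k + 1) g d e = Th k d e g := Th_rot k d e g
  rw [e1, e2, e3, e4]
  abel

/-- family (h): `C_k` followed by `C_{k+1}`. -/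
lemma idH (k : ℕ) (d e g : I) :
    (∑ s, relC x k s d e * x (lev (k + 2) + 1) g s) - (∑ q, x (lev k + 1) e q * relC x (k + 1) q g d)
      + (∑ f, Th k f d e • relA x (lev (k + 2)) f g)
      - (∑ f, Th (k + 1) f g d • relA x (lev k + 1) e f) = 0 := by
  have hl : lev (k + 1 + 2) = lev k + 2 := lev3 k
  have hl2 : lev (k + 1 + 1) = lev (k + 2) := rfl
  have hl3 : lev k + 1 + 1 = lev k + 2 := rfl
  simp only [relA, relC, sub_mul, mul_sub, Finset.sum_sub_distrib, Finset.sum_mul,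
    Finset.mul_sum, Finset.smul_sum, smul_sub, mul_smul_comm, smul_mul_assoc, mul_assoc,
    smul_ite, smul_zero, hl, hl2, hl3, Finset.sum_ite_eq, Finset.sum_ite_eq', Finset.mem_univ,
    if_true]
  have e1 : ∑ x_1, ∑ x_2, ∑ x_3, Th k x_1 x_2 x_3 •
      (x (lev k + 1) e x_3 * (x (lev (k + 1) + 1) d x_2 * x (lev (k + 2) + 1) g x_1)) =
      ∑ x_1, ∑ x_2, ∑ x_3, Th (k + 1) x_1 x_2 x_3 •
      (x (lev k + 1) e x_1 * (x (lev (k + 1) + 1) d x_3 * x (lev (k + 2) + 1) g x_2)) := by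
    rw [sum3b]
    refine Finset.sum_congr rfl fun a _ => Finset.sum_congr rfl fun b _ =>
      Finset.sum_congr rfl fun c _ => ?_
    rw [Th_rot]
  have e2 : ∑ x_1, ∑ x_2, Th k x_2 d e • (x (lev (k + 2)) x_2 x_1 * x (lev (k + 2) + 1) g x_1) =
      ∑ x_1, ∑ x_2, Th k x_1 d e • (x (lev (k + 2)) x_1 x_2 * x (lev (k + 2) + 1) g x_2) :=
    Finset.sum_comm
  have e3 : ∑ x_1, ∑ x_2, Th (k + 1) x_2 g d • (x (lev k + 1) e x_1 * x (lev k + 2) x_2 x_1) =
      ∑ x_1, ∑ x_2, Th (k + 1) x_1 g d • (x (lev k + 1) e x_2 * x (lev k + 2) x_1 x_2) :=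
    Finset.sum_comm
  have e4 : Th (k + 1) e g d = Th k g d e := Th_rot k g d e
  rw [e1, e2, e3, e4]
  abel

end rel

end TH288.Sys
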